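import Pool.Agent.H84.SelfCoverDefs

/-!
# A `K(Q,1)` for the infinite dihedral group
-/

open Topology

namespace Pool.Agent.H84

/-- The nonzero real sequences. -/
abbrev NZ : Type := {v : ℕ → ℝ // v ≠ 0}

namespace NZ

/-- the shifted sequence `(0, v 0, v 1, ...)` -/
def sh (v : ℕ → ℝ) : ℕ → ℝ := fun n => Nat.casesOn n 0 v

@[simp] lemma sh_zero (v : ℕ → ℝ) : sh v 0 = 0 := rfl
@[simp] lemma sh_succ (v : ℕ → ℝ) (n : ℕ) : sh v (n + 1) = v n := rfl

lemma continuous_sh : Continuous sh := by
  refine continuous_pi fun n => ?_
  cases n with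
  | zero => simpa using continuous_const
  | succ n => simpa using continuous_apply n

lemma aux1 (t : ℝ) (v : ℕ → ℝ) (hv : v ≠ 0) : (1 - t) • v + t • sh v ≠ 0 := by
  intro h
  apply hv
  have h0 : ∀ n, (1 - t) * v n + t * sh v n = 0 := fun n => congrFun h n
  by_cases ht : t = 1
  · funext n
    have := h0 (n + 1)
    rw [ht] at this
    simpa using this
  · have ht' : 1 - t ≠ 0 := sub_ne_zero.2 (Ne.symm ht)
    funext n
    induction n with
    | zero =>
      have := h0 0
      simpa [ht'] using this
    | succ n ih =>
      have := h0 (n + 1)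
      rw [sh_succ, ih] at this
      simpa [ht'] using this

lemma aux2 (t : ℝ) (v : ℕ → ℝ) (hv : v ≠ 0) :
    (1 - t) • sh v + t • (Pi.single 0 1 : ℕ → ℝ) ≠ 0 := by
  intro h
  apply hv
  have h0 : ∀ n, (1 - t) * sh v n + t * (Pi.single 0 1 : ℕ → ℝ) n = 0 := fun n => congrFun h n
  have h1 := h0 0
  simp only [sh_zero, mul_zero, Pi.single_eq_same, mul_one, zero_add] at h1
  funext n
  have h2 := h0 (n + 1)
  rw [h1] at h2
  simpa using h2

/-- the shift as a continuous self-map of the space of nonzero sequences -/
def shMap : C(NZ, NZ) where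
  toFun v := ⟨sh v.1, by
    have := aux1 1 v.1 v.2
    simpa using this⟩
  continuous_toFun := by
    refine Continuous.subtype_mk (continuous_sh.comp continuous_subtype_val) _

/-- the first unit vector -/
def e0 : NZ := ⟨Pi.single 0 1, by
  intro h
  have := congrFun h 0
  simp at this⟩

/-- the identity is homotopic to the shift -/
def hom1 : (ContinuousMap.id NZ).Homotopy shMap where
  toFun x := ⟨(1 - (x.1 : ℝ)) • x.2.1 + (x.1 : ℝ) • sh x.2.1, aux1 _ _ x.2.2⟩
  continuous_toFun := by
    have h := continuous_sh
    refine Continuous.subtype_mk ?_ _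
    have h1 : Continuous fun x : unitInterval × NZ => sh x.2.1 :=
      h.comp (continuous_subtype_val.comp continuous_snd)
    fun_prop
  map_zero_left v := by
    apply Subtype.ext
    simp
  map_one_left v := by
    apply Subtype.ext
    simp [shMap]

/-- the shift is homotopic to a constant map -/
def hom2 : shMap.Homotopy (ContinuousMap.const NZ e0) where
  toFun x := ⟨(1 - (x.1 : ℝ)) • sh x.2.1 + (x.1 : ℝ) • (Pi.single 0 1 : ℕ → ℝ), aux2 _ _ x.2.2⟩
  continuous_toFun := by
    have h := continuous_sh
    refine Continuous.subtype_mk ?_ _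
    have h1 : Continuous fun x : unitInterval × NZ => sh x.2.1 :=
      h.comp (continuous_subtype_val.comp continuous_snd)
    fun_prop
  map_zero_left v := by
    apply Subtype.ext
    simp [shMap]
  map_one_left v := by
    apply Subtype.ext
    simp [e0]

instance : ContractibleSpace NZ := by
  rw [contractible_iff_id_nullhomotopic]
  exact ⟨e0, ⟨hom1.trans hom2⟩⟩

end NZ

/-- The integers modulo `0`, seen in the real line. -/
noncomputable def zr : ZMod 0 →+* ℝ := ZMod.castHom (dvd_refl 0) ℝ

lemma zr_eq_zero {i : ZMod 0} (h : |zr i| < 1) : i = 0 := by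
  obtain ⟨j, rfl⟩ := ZMod.intCast_surjective i
  rw [map_intCast] at h
  have h2 : |j| < 1 := by exact_mod_cast h
  rw [Int.abs_lt_one_iff.1 h2, Int.cast_zero]

/-- The total space of the universal covering. -/
abbrev EZ : Type := ℝ × NZ

/-- The antipodal map on nonzero sequences. -/
def ng (v : NZ) : NZ := ⟨-v.1, neg_ne_zero.2 v.2⟩

lemma ng_ng (v : NZ) : ng (ng v) = v := Subtype.ext (neg_neg v.1)

lemma continuous_ng : Continuous ng :=
  Continuous.subtype_mk continuous_subtype_val.neg _

open DihedralGroup in
/-- The action of the infinite dihedral group. -/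
noncomputable instance : MulAction (DihedralGroup 0) EZ where
  smul g x := match g with
    | r i => (x.1 + zr i, x.2)
    | sr i => (-x.1 - zr i, ng x.2)
  one_smul x := by
    change (x.1 + zr 0, x.2) = x
    rw [map_zero, add_zero]
  mul_smul a b x := by
    rcases a with i | i <;> rcases b with j | j
    · change (x.1 + zr (i + j), x.2) = (x.1 + zr j + zr i, x.2)
      rw [map_add]
      ext
      · simp only
        ring
      · rfl
    · change (-x.1 - zr (j - i), ng x.2) = ((-x.1 - zr j) + zr i, ng x.2)
      rw [map_sub]
      ext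
      · simp only
        ring
      · rfl
    · change (-x.1 - zr (i + j), ng x.2) = (-(x.1 + zr j) - zr i, ng x.2)
      rw [map_add]
      ext
      · simp only
        ring
      · rfl
    · change (x.1 + zr (j - i), x.2) = (-(-x.1 - zr j) - zr i, ng (ng x.2))
      rw [map_sub, ng_ng]
      ext
      · simp only
        ring
      · rfl

lemma r_smul (i : ZMod 0) (x : EZ) : DihedralGroup.r i • x = (x.1 + zr i, x.2) := rfl
lemma sr_smul (i : ZMod 0) (x : EZ) : DihedralGroup.sr i • x = (-x.1 - zr i, ng x.2) := rfl

instance : ContinuousConstSMul (DihedralGroup 0) EZ where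
  continuous_const_smul g := by
    rcases g with i | i
    · simp only [r_smul]
      fun_prop
    · simp only [sr_smul]
      have := continuous_ng
      fun_prop

/-- A `K(Q,1)` for the infinite dihedral group. -/
def YD : Type := Quotient (MulAction.orbitRel (DihedralGroup 0) EZ)

instance : TopologicalSpace YD :=
  inferInstanceAs (TopologicalSpace (Quotient (MulAction.orbitRel (DihedralGroup 0) EZ)))

/-- The universal covering of `YD`. -/
noncomputable def yp : EZ → YD := Quotient.mk (MulAction.orbitRel (DihedralGroup 0) EZ)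

lemma yp_qc : IsQuotientCoveringMap yp (DihedralGroup 0) where
  toIsQuotientMap := isQuotientMap_quotient_mk'
  continuous_const_smul := ContinuousConstSMul.continuous_const_smul
  apply_eq_iff_mem_orbit := by
    intro a b
    exact Quotient.eq (r := MulAction.orbitRel (DihedralGroup 0) EZ)
  disjoint := by
    rintro ⟨x, v⟩
    obtain ⟨k, hk⟩ : ∃ k, v.1 k ≠ 0 := by
      by_contra h
      push Not at h
      exact v.2 (funext h)
    refine ⟨{z : EZ | |z.1 - x| < 1 / 2 ∧ 0 < z.2.1 k * v.1 k}, ?_, ?_⟩
    · refine IsOpen.mem_nhds ?_ ?_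
      · have h0 : Continuous fun z : EZ => z.2.1 k :=
          (continuous_apply k).comp (continuous_subtype_val.comp continuous_snd)
        have ha : IsOpen {z : EZ | |z.1 - x| < 1 / 2} :=
          isOpen_lt ((continuous_fst.sub continuous_const).abs) continuous_const
        have hb : IsOpen {z : EZ | 0 < z.2.1 k * v.1 k} :=
          isOpen_lt continuous_const (h0.mul continuous_const)
        exact ha.inter hb
      · constructor
        · simp
        · exact mul_self_pos.2 hk
    · rintro g ⟨_, ⟨z, ⟨hz1, hz2⟩, rfl⟩, hz3, hz4⟩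
      rcases g with i | i
      · simp only [r_smul] at hz3
        have : i = 0 := by
          apply zr_eq_zero
          have h1 : zr i = (z.1 + zr i - x) - (z.1 - x) := by ring
          rw [h1]
          have h2 := abs_sub (z.1 + zr i - x) (z.1 - x)
          linarith
        rw [this, DihedralGroup.r_zero]
      · exfalso
        simp only [sr_smul] at hz4
        have h5 : (ng z.2).1 k = - z.2.1 k := rfl
        rw [h5] at hz4
        linarith

instance : PathConnectedSpace YD := yp_qc.surjective.pathConnectedSpace yp_qc.continuous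

/-- There is a `K(Q,1)` for the infinite dihedral group. -/
lemma isK1_YD : IsK1 (DihedralGroup 0) YD where
  pathConnected := inferInstance
  fundamentalGroup y := by
    obtain ⟨e, rfl⟩ := yp_qc.surjective y
    exact ⟨(yp_qc.fundamentalGroupEquiv (⟨e, rfl⟩ : yp ⁻¹' {yp e})).trans
      (MulEquiv.inv' (DihedralGroup 0)).symm⟩
  contractibleCover := ⟨EZ, inferInstance, inferInstance, yp, yp_qc.isCoveringMap⟩

/-- Being a `K(Q,1)` only depends on the isomorphism class of `Q`. -/
lemma IsK1.congr {Q : Type*} [Group Q] {R : Type*} [Group R] (e : Q ≃* R) {Y : Type*}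
    [TopologicalSpace Y] (h : IsK1 Q Y) : IsK1 R Y where
  pathConnected := h.pathConnected
  fundamentalGroup y := by
    obtain ⟨f⟩ := h.fundamentalGroup y
    exact ⟨f.trans e⟩
  contractibleCover := h.contractibleCover

end Pool.Agent.H84
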