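import Mathlib

/-!
# A contractible space has infinite index for free involutions

Mod 2 chains on lists of points; the main result is `no_finite_index`.
-/

open Topology

namespace Pool.Agent.H84

noncomputable section

/-- Mod 2 chains: finite formal sums of lists of points. -/
abbrev Ch (V : Type*) := List V →₀ ZMod 2

variable {V : Type*}

/-- Put the point `v` in front of every list of a chain. -/
def pre (v : V) : Ch V →ₗ[ZMod 2] Ch V := Finsupp.lmapDomain (ZMod 2) (ZMod 2) (List.cons v)

/-- Push a chain forward along a map of points. -/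
def push (f : V → V) : Ch V →ₗ[ZMod 2] Ch V := Finsupp.lmapDomain (ZMod 2) (ZMod 2) (List.map f)

/-- A chain consisting of one list. -/
def one (L : List V) : Ch V := Finsupp.single L 1

/-- Boundary of a list. -/
def bdL : List V → Ch V
  | [] => 0
  | v :: l => one l + pre v (bdL l)

/-- Boundary. -/
def bd : Ch V →ₗ[ZMod 2] Ch V := Finsupp.linearCombination (ZMod 2) bdL

/-- Prism on a list. -/
def prL (f g : V → V) : List V → Ch V
  | [] => 0
  | v :: l => one (f v :: g v :: l.map g) + pre (f v) (prL f g l)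

/-- Prism operator. -/
def pr (f g : V → V) : Ch V →ₗ[ZMod 2] Ch V := Finsupp.linearCombination (ZMod 2) (prL f g)

@[simp] lemma pre_one (v : V) (L : List V) : pre v (one L) = one (v :: L) := by
  simp [pre, one, Finsupp.mapDomain_single]

@[simp] lemma push_one (f : V → V) (L : List V) : push f (one L) = one (L.map f) := by
  simp [push, one, Finsupp.mapDomain_single]

@[simp] lemma bd_one (L : List V) : bd (one L) = bdL L := by
  simp [bd, one]

@[simp] lemma pr_one (f g : V → V) (L : List V) : pr f g (one L) = prL f g L := by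
  simp [pr, one]

lemma add_self' (c : Ch V) : c + c = 0 := by
  ext L
  simp only [Finsupp.coe_add, Pi.add_apply, Finsupp.coe_zero, Pi.zero_apply]
  exact CharTwo.add_self_eq_zero _

lemma lin_ext {M : Type*} [AddCommMonoid M] [Module (ZMod 2) M] {F G : Ch V →ₗ[ZMod 2] M}
    (h : ∀ L, F (one L) = G (one L)) : F = G := by
  apply Finsupp.lhom_ext'
  intro L
  ext
  simpa [one] using h L

lemma bd_pre (v : V) (c : Ch V) : bd (pre v c) = c + pre v (bd c) := by
  have : (bd (V := V)) ∘ₗ pre v = LinearMap.id + (pre v) ∘ₗ bd := by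
    apply lin_ext
    intro L
    simp [bdL]
  simpa using LinearMap.congr_fun this c

lemma push_pre (f : V → V) (v : V) (c : Ch V) : push f (pre v c) = pre (f v) (push f c) := by
  have : (push f) ∘ₗ pre v = (pre (f v)) ∘ₗ push f := by
    apply lin_ext
    intro L
    simp
  simpa using LinearMap.congr_fun this c

lemma pr_pre (f g : V → V) (v : V) (c : Ch V) :
    pr f g (pre v c) = pre (f v) (pre (g v) (push g c)) + pre (f v) (pr f g c) := by
  have : (pr f g) ∘ₗ pre v = (pre (f v)) ∘ₗ (pre (g v)) ∘ₗ push g + (pre (f v)) ∘ₗ (pr f g) := by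
    apply lin_ext
    intro L
    simp [prL]
  simpa using LinearMap.congr_fun this c

lemma bd_push (f : V → V) (c : Ch V) : bd (push f c) = push f (bd c) := by
  have : (bd (V := V)) ∘ₗ push f = (push f) ∘ₗ bd := by
    apply lin_ext
    intro L
    simp only [LinearMap.comp_apply, push_one, bd_one]
    induction L with
    | nil => simp [bdL]
    | cons v l ih => simp [bdL, push_pre, ih]
  simpa using LinearMap.congr_fun this c

lemma bd_pr (f g : V → V) (c : Ch V) :
    bd (pr f g c) + pr f g (bd c) = push f c + push g c := by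
  have : (bd (V := V)) ∘ₗ (pr f g) + (pr f g) ∘ₗ bd = push f + push g := by
    apply lin_ext
    intro L
    simp only [LinearMap.add_apply, LinearMap.comp_apply, push_one, bd_one, pr_one]
    induction L with
    | nil => simp [bdL, prL, add_self']
    | cons v l ih =>
      have h1 : bd (prL f g (v :: l)) = one (g v :: l.map g) + (one (f v :: l.map g) +
          pre (f v) (pre (g v) (push g (bdL l)))) + (prL f g l + pre (f v) (bd (prL f g l))) := by
        have h3 : bdL (l.map g) = push g (bdL l) := by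
          rw [← bd_one, ← push_one, bd_push, bd_one]
        simp [prL, bdL, bd_pre, h3]
      have h2 : pr f g (bdL (v :: l)) = prL f g l + (pre (f v) (pre (g v) (push g (bdL l)))
          + pre (f v) (pr f g (bdL l))) := by
        simp [bdL, pr_pre]
      rw [h1, h2]
      have h4 := congrArg (pre (f v)) ih
      simp only [map_add, pre_one] at h4
      have e1 : one (g v :: l.map g) + (one (f v :: l.map g) +
          pre (f v) (pre (g v) (push g (bdL l)))) + (prL f g l + pre (f v) (bd (prL f g l))) +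
          (prL f g l + (pre (f v) (pre (g v) (push g (bdL l)))
          + pre (f v) (pr f g (bdL l)))) =
          one (g v :: l.map g) + one (f v :: l.map g) +
          (pre (f v) (pre (g v) (push g (bdL l))) + pre (f v) (pre (g v) (push g (bdL l)))) +
          (prL f g l + prL f g l) + (pre (f v) (bd (prL f g l)) + pre (f v) (pr f g (bdL l))) := by
        abel
      rw [e1, add_self', add_self', h4]
      have e2 : one (g v :: l.map g) + one (f v :: l.map g) + 0 + 0 +
          (one (f v :: l.map f) + one (f v :: l.map g)) = one (f v :: l.map f) +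
          one (g v :: l.map g) + (one (f v :: l.map g) + one (f v :: l.map g)) := by abel
      rw [e2, add_self']
      simp
  simpa using LinearMap.congr_fun this c

/-- The cochain `δ f₁ ∪ ⋯ ∪ δ fₙ`, with value `0` on lists of length different from `n + 1`. -/
def om : List (V → ZMod 2) → List V → ZMod 2
  | [], [_] => 1
  | f :: fs, u :: v :: l => (f u + f v) * om fs (v :: l)
  | _, _ => 0

/-- The cochain `f ∪ δ f₁ ∪ ⋯ ∪ δ fₙ`. -/
def al (f : V → ZMod 2) (fs : List (V → ZMod 2)) : List V → ZMod 2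
  | [] => 0
  | v :: l => f v * om fs (v :: l)

/-- Evaluation of a cochain on chains. -/
def ev (g : List V → ZMod 2) : Ch V →ₗ[ZMod 2] ZMod 2 := Finsupp.linearCombination (ZMod 2) g

@[simp] lemma ev_one (g : List V → ZMod 2) (L : List V) : ev g (one L) = g L := by
  simp [ev, one]

@[simp] lemma om_nil (fs : List (V → ZMod 2)) : om fs [] = 0 := by
  cases fs <;> rfl

lemma om_cons_single (f : V → ZMod 2) (fs : List (V → ZMod 2)) (v : V) : om (f :: fs) [v] = 0 := rfl

lemma om_nil_cons_cons (u v : V) (l : List V) : om [] (u :: v :: l) = 0 := rfl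

lemma om_cons_cons_cons (f : V → ZMod 2) (fs : List (V → ZMod 2)) (u v : V) (l : List V) :
    om (f :: fs) (u :: v :: l) = (f u + f v) * om fs (v :: l) := rfl

/-- `ev (om fs)` of `v * w * c`. -/
lemma ev_om_nil_pre_pre (v w : V) (c : Ch V) : ev (om []) (pre v (pre w c)) = 0 := by
  have : ev (om []) ∘ₗ (pre v) ∘ₗ (pre w) = 0 := by
    apply lin_ext
    intro L
    simp [om_nil_cons_cons]
  simpa using LinearMap.congr_fun this c

lemma ev_om_cons_pre_pre (f : V → ZMod 2) (fs : List (V → ZMod 2)) (v w : V) (c : Ch V) :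
    ev (om (f :: fs)) (pre v (pre w c)) = (f v + f w) * ev (om fs) (pre w c) := by
  have : ev (om (f :: fs)) ∘ₗ (pre v) ∘ₗ (pre w) = (f v + f w) • (ev (om fs) ∘ₗ (pre w)) := by
    apply lin_ext
    intro L
    simp [om_cons_cons_cons]
  simpa using LinearMap.congr_fun this c

lemma ev_om_pre_bd (fs : List (V → ZMod 2)) (v : V) (L : List V) :
    ev (om fs) (pre v (bdL L)) = om fs L := by
  induction fs generalizing v L with
  | nil =>
    cases L with
    | nil => simp [bdL]
    | cons w l =>
      simp only [bdL, map_add, pre_one, ev_one]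
      rw [ev_om_nil_pre_pre, add_zero]
      cases l with
      | nil => rfl
      | cons x l => rfl
  | cons f fs ih =>
    cases L with
    | nil => simp [bdL]
    | cons w l =>
      simp only [bdL, map_add, pre_one, ev_one]
      rw [ev_om_cons_pre_pre, ih]
      cases l with
      | nil => simp [om_cons_single]
      | cons x l =>
        simp only [om_cons_cons_cons]
        have : f v + f x + (f v + f w) = (f w + f x) + (f v + f v) := by ring
        rw [← add_mul, this, CharTwo.add_self_eq_zero, add_zero]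

lemma ev_al_pre (f : V → ZMod 2) (fs : List (V → ZMod 2)) (v : V) (c : Ch V) :
    ev (al f fs) (pre v c) = f v * ev (om fs) (pre v c) := by
  have : ev (al f fs) ∘ₗ (pre v) = (f v) • (ev (om fs) ∘ₗ (pre v)) := by
    apply lin_ext
    intro L
    simp [al]
  simpa using LinearMap.congr_fun this c

lemma ev_al_bdL (f : V → ZMod 2) (fs : List (V → ZMod 2)) (L : List V) :
    ev (al f fs) (bdL L) = om (f :: fs) L := by
  cases L with
  | nil => simp [bdL]
  | cons v l =>
    simp only [bdL, map_add, ev_one]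
    rw [ev_al_pre, ev_om_pre_bd]
    cases l with
    | nil => simp [al, om_cons_single]
    | cons w l =>
      simp only [al, om_cons_cons_cons]
      ring

lemma ev_al_bd (f : V → ZMod 2) (fs : List (V → ZMod 2)) (c : Ch V) :
    ev (al f fs) (bd c) = ev (om (f :: fs)) c := by
  have : ev (al f fs) ∘ₗ bd = ev (om (f :: fs)) := by
    apply lin_ext
    intro L
    simp [ev_al_bdL]
  simpa using LinearMap.congr_fun this c

lemma om_map (s : V → V) (fs : List (V → ZMod 2)) (hfs : ∀ f ∈ fs, ∀ z, f (s z) = f z + 1)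
    (L : List V) : om fs (L.map s) = om fs L := by
  induction fs generalizing L with
  | nil =>
    match L with
    | [] => rfl
    | [v] => rfl
    | u :: v :: l => rfl
  | cons f fs ih =>
    match L with
    | [] => rfl
    | [v] => rfl
    | u :: v :: l =>
      have hf : ∀ z, f (s z) = f z + 1 := hfs f (by simp)
      have ih' := ih (fun g hg => hfs g (by simp [hg])) (v :: l)
      simp only [List.map_cons] at ih' ⊢
      rw [om_cons_cons_cons, om_cons_cons_cons, ih', hf, hf]
      have : f u + 1 + (f v + 1) = f u + f v + (1 + 1) := by ring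
      rw [this, CharTwo.add_self_eq_zero, add_zero]

lemma al_add_al_map (s : V → V) (f : V → ZMod 2) (hf : ∀ z, f (s z) = f z + 1)
    (fs : List (V → ZMod 2)) (hfs : ∀ f ∈ fs, ∀ z, f (s z) = f z + 1)
    (L : List V) : al f fs L + al f fs (L.map s) = om fs L := by
  cases L with
  | nil => simp [al]
  | cons v l =>
    have h := om_map s fs hfs (v :: l)
    simp only [List.map_cons] at h ⊢
    simp only [al]
    rw [h, hf, ← add_mul]
    have : f v + (f v + 1) = (f v + f v) + 1 := by ring
    rw [this, CharTwo.add_self_eq_zero, zero_add, one_mul]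

lemma ev_al_add_push (s : V → V) (f : V → ZMod 2) (hf : ∀ z, f (s z) = f z + 1)
    (fs : List (V → ZMod 2)) (hfs : ∀ f ∈ fs, ∀ z, f (s z) = f z + 1)
    (c : Ch V) : ev (al f fs) (c + push s c) = ev (om fs) c := by
  have : ev (al f fs) ∘ₗ (LinearMap.id + push s) = ev (om fs) := by
    apply lin_ext
    intro L
    simp [al_add_al_map s f hf fs hfs]
  simpa using LinearMap.congr_fun this c

lemma om_eq_zero_of_const (fs : List (V → ZMod 2)) (L : List V) (f : V → ZMod 2) (hf : f ∈ fs)
    (c : ZMod 2) (hc : ∀ v ∈ L, f v = c) : om fs L = 0 := by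
  induction fs generalizing L with
  | nil => simp at hf
  | cons g fs ih =>
    match L with
    | [] => rfl
    | [v] => rfl
    | u :: v :: l =>
      rw [om_cons_cons_cons]
      rcases List.mem_cons.1 hf with h | h
      · subst h
        rw [hc u (by simp), hc v (by simp), CharTwo.add_self_eq_zero, zero_mul]
      · rw [ih (v :: l) h (fun w hw => hc w (List.mem_cons_of_mem _ hw)), mul_zero]

/-! ### The topological part -/

variable {Z : Type*}

/-- The fine cone operator for a homotopy `H` and `N` time steps. -/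
def coneN (H : ℝ → Z → Z) (N : ℕ) : Ch Z →ₗ[ZMod 2] Ch Z :=
  ∑ l ∈ Finset.range N, pr (H (l / N)) (H ((l + 1 : ℕ) / N))

lemma bd_coneN (H : ℝ → Z → Z) (N : ℕ) (hN : N ≠ 0) (c : Ch Z) :
    bd (coneN H N c) + coneN H N (bd c) = push (H 0) c + push (H 1) c := by
  have key : ∀ M : ℕ, bd ((∑ l ∈ Finset.range M, pr (H (l / N)) (H ((l + 1 : ℕ) / N))) c) +
      (∑ l ∈ Finset.range M, pr (H (l / N)) (H ((l + 1 : ℕ) / N))) (bd c) =
      push (H 0) c + push (H (M / N)) c := by
    intro M
    induction M with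
    | zero => simp [add_self']
    | succ M ih =>
      rw [Finset.sum_range_succ]
      simp only [LinearMap.add_apply, map_add]
      have h := bd_pr (H (M / N)) (H ((M + 1 : ℕ) / N)) c
      calc _ = (bd ((∑ l ∈ Finset.range M, pr (H (l / N)) (H ((l + 1 : ℕ) / N))) c) +
              (∑ l ∈ Finset.range M, pr (H (l / N)) (H ((l + 1 : ℕ) / N))) (bd c)) +
              (bd (pr (H (M / N)) (H ((M + 1 : ℕ) / N)) c) +
              pr (H (M / N)) (H ((M + 1 : ℕ) / N)) (bd c)) := by abel
        _ = push (H 0) c + push (H (M / N)) c + (push (H (M / N)) c +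
              push (H ((M + 1 : ℕ) / N)) c) := by rw [ih, h]
        _ = push (H 0) c + push (H ((M + 1 : ℕ) / N)) c +
              (push (H (M / N)) c + push (H (M / N)) c) := by abel
        _ = _ := by rw [add_self', add_zero]
  have h := key N
  rw [div_self (by exact_mod_cast hN : (N : ℝ) ≠ 0)] at h
  exact h

/-- Chains all of whose lists satisfy `P`. -/
abbrev Supp (P : List V → Prop) : Submodule (ZMod 2) (Ch V) :=
  Finsupp.supported (ZMod 2) (ZMod 2) {L | P L}

lemma one_mem_Supp {P : List V → Prop} {L : List V} (h : P L) : one L ∈ Supp P :=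
  Finsupp.single_mem_supported _ _ h

lemma map_mem_Supp {W : Type*} {P : List V → Prop} {Q : List W → Prop} (F : Ch V →ₗ[ZMod 2] Ch W)
    (h : ∀ L, P L → F (one L) ∈ Supp Q) {c : Ch V} (hc : c ∈ Supp P) : F c ∈ Supp Q := by
  have hc' := hc
  rw [Supp, Finsupp.supported_eq_span_single] at hc'
  have : Submodule.span (ZMod 2) ((fun i => Finsupp.single i (1 : ZMod 2)) '' {L | P L}) ≤
      (Supp Q).comap F := by
    rw [Submodule.span_le]
    rintro _ ⟨L, hL, rfl⟩
    exact h L hL
  exact this hc'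

lemma prL_mem (f g : V → V) (L : List V) :
    prL f g L ∈ Supp (fun L' => ∀ w ∈ L', ∃ v ∈ L, w = f v ∨ w = g v) := by
  induction L with
  | nil => exact Submodule.zero_mem _
  | cons v l ih =>
    refine Submodule.add_mem _ (one_mem_Supp ?_) (map_mem_Supp (pre (f v)) ?_ ih)
    · intro w hw
      rcases List.mem_cons.1 hw with h | h
      · exact ⟨v, by simp, Or.inl h⟩
      rcases List.mem_cons.1 h with h | h
      · exact ⟨v, by simp, Or.inr h⟩
      · obtain ⟨x, hx, rfl⟩ := List.mem_map.1 h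
        exact ⟨x, by simp [hx], Or.inr rfl⟩
    · intro L hL
      rw [pre_one]
      refine one_mem_Supp ?_
      intro w hw
      rcases List.mem_cons.1 hw with h | h
      · exact ⟨v, by simp, Or.inl h⟩
      · obtain ⟨x, hx, h'⟩ := hL w h
        exact ⟨x, by simp [hx], h'⟩

lemma ev_eq_zero {P : List V → Prop} {g : List V → ZMod 2} (h : ∀ L, P L → g L = 0) {c : Ch V}
    (hc : c ∈ Supp P) : ev g c = 0 := by
  have hc' := hc
  rw [Supp, Finsupp.supported_eq_span_single] at hc'
  have : Submodule.span (ZMod 2) ((fun i => Finsupp.single i (1 : ZMod 2)) '' {L | P L}) ≤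
      LinearMap.ker (ev g) := by
    rw [Submodule.span_le]
    rintro _ ⟨L, hL, rfl⟩
    simpa [one] using (ev_one g L).trans (h L hL)
  exact this hc'

variable [TopologicalSpace Z]

lemma fine_one (H : ℝ → Z → Z) (hH : Continuous fun p : ℝ × Z => H p.1 p.2) (U : Set (Set Z))
    (hUo : ∀ u ∈ U, IsOpen u) (z : Z) (hcov : ∀ t ∈ Set.Icc (0 : ℝ) 1, ∃ u ∈ U, H t z ∈ u) :
    ∃ W, IsOpen W ∧ z ∈ W ∧ ∃ δ > 0, ∀ a b : ℝ, 0 ≤ a → a ≤ b → b ≤ 1 → b - a ≤ δ →
      ∃ u ∈ U, ∀ v ∈ W, ∀ t ∈ Set.Icc a b, H t v ∈ u := by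
  choose! u hu hzu using hcov
  have h1 : ∀ t ∈ Set.Icc (0 : ℝ) 1, ∃ V W, IsOpen V ∧ t ∈ V ∧ IsOpen W ∧ z ∈ W ∧
      ∀ t' ∈ V, ∀ v ∈ W, H t' v ∈ u t := by
    intro t ht
    have ho : IsOpen ((fun p : ℝ × Z => H p.1 p.2) ⁻¹' (u t)) := (hUo _ (hu t ht)).preimage hH
    obtain ⟨V, W, hV, hW, htV, hzW, hsub⟩ := isOpen_prod_iff.1 ho t z (hzu t ht)
    exact ⟨V, W, hV, htV, hW, hzW, fun t' ht' v hv => hsub (Set.mk_mem_prod ht' hv)⟩
  choose! V W hV htV hW hzW hsub using h1
  obtain ⟨T, hT, hTcov⟩ := (isCompact_Icc (a := (0 : ℝ)) (b := 1)).elim_nhds_subcover V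
    (fun t ht => (hV t ht).mem_nhds (htV t ht))
  obtain ⟨δ, hδ, hleb⟩ := lebesgue_number_lemma_of_metric (s := Set.Icc (0 : ℝ) 1)
    (c := fun t : T => V t) isCompact_Icc (fun t => hV _ (hT _ t.2)) (by
      intro x hx
      obtain ⟨t, ht, hx'⟩ := Set.mem_iUnion₂.1 (hTcov hx)
      exact Set.mem_iUnion.2 ⟨⟨t, ht⟩, hx'⟩)
  refine ⟨⋂ t ∈ T, W t, isOpen_biInter_finset (fun t ht => hW t (hT t ht)),
    Set.mem_iInter₂.2 (fun t ht => hzW t (hT t ht)), δ / 2, by positivity, ?_⟩
  intro a b ha hab hb hd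
  obtain ⟨⟨t, ht⟩, hball⟩ := hleb a ⟨ha, hab.trans hb⟩
  refine ⟨u t, hu t (hT t ht), ?_⟩
  intro v hv t' ht'
  refine hsub t (hT t ht) t' (hball ?_) v (Set.mem_iInter₂.1 hv t ht)
  rw [Metric.mem_ball, Real.dist_eq, abs_of_nonneg (by linarith [ht'.1])]
  linarith [ht'.2]

lemma fine_all (H : ℝ → Z → Z) (hH : Continuous fun p : ℝ × Z => H p.1 p.2) (U : Set (Set Z))
    (hUo : ∀ u ∈ U, IsOpen u) (K : Set Z) (hK : IsCompact K)
    (hcov : ∀ z ∈ K, ∀ t ∈ Set.Icc (0 : ℝ) 1, ∃ u ∈ U, H t z ∈ u) :
    ∃ N : ℕ, N ≠ 0 ∧ ∀ z ∈ K, ∃ W, IsOpen W ∧ z ∈ W ∧ ∀ l < N,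
      ∃ u ∈ U, ∀ v ∈ W, ∀ t ∈ Set.Icc ((l : ℝ) / N) (((l + 1 : ℕ) : ℝ) / N), H t v ∈ u := by
  have h1 := fun z (hz : z ∈ K) => fine_one H hH U hUo z (hcov z hz)
  choose! W hW hzW δ hδ hprop using h1
  obtain ⟨T, hT, hTcov⟩ := hK.elim_nhds_subcover W (fun z hz => (hW z hz).mem_nhds (hzW z hz))
  have h2 : ∃ ε : ℝ, 0 < ε ∧ ∀ z ∈ T, ε ≤ δ z := by
    classical
    clear hTcov
    induction T using Finset.induction_on with
    | empty => exact ⟨1, one_pos, by simp⟩
    | insert a s ha ih =>
      obtain ⟨ε, hε, h⟩ := ih (fun z hz => hT z (Finset.mem_insert_of_mem hz))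
      refine ⟨min ε (δ a), lt_min hε (hδ a (hT a (Finset.mem_insert_self _ _))), ?_⟩
      intro z hz
      rcases Finset.mem_insert.1 hz with h' | h'
      · subst h'; exact min_le_right _ _
      · exact (min_le_left _ _).trans (h z h')
  obtain ⟨ε, hε, hεT⟩ := h2
  obtain ⟨N, hN⟩ := exists_nat_gt (1 / ε)
  have hNpos : (0 : ℝ) < N := lt_trans (by positivity) hN
  have hN0 : N ≠ 0 := by
    rintro rfl
    simp at hNpos
  refine ⟨N, hN0, ?_⟩
  intro z hz
  obtain ⟨x, hx, hzx⟩ := Set.mem_iUnion₂.1 (hTcov hz)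
  refine ⟨W x, hW x (hT x hx), hzx, ?_⟩
  intro l hl
  refine hprop x (hT x hx) _ _ (by positivity) ?_ ?_ ?_
  · gcongr
    simp
  · rw [div_le_one hNpos]
    exact_mod_cast hl
  · refine le_trans ?_ (hεT x hx)
    rw [← sub_div]
    have : (((l + 1 : ℕ) : ℝ) - l) = 1 := by push_cast; ring
    rw [this, div_le_iff₀ hNpos]
    rw [div_lt_iff₀ hε] at hN
    linarith

/-- The chains `h n` with `∂ h (n+1) = h n + s (h n)`, arbitrarily fine. -/
lemma exists_chain (s : Z → Z) (hs : Continuous s) (hss : ∀ z, s (s z) = z) (z₀ : Z)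
    (H : ℝ → Z → Z) (hH : Continuous fun p : ℝ × Z => H p.1 p.2) (H0 : ∀ z, H 0 z = z)
    (H1 : ∀ z, H 1 z = z₀) (n : ℕ) :
    ∃ K : Set Z, IsCompact K ∧ ∀ U : Set (Set Z), (∀ u ∈ U, IsOpen u) →
      (∀ z ∈ K, ∃ u ∈ U, z ∈ u) → ∃ h : Ch Z,
        h ∈ Supp (fun L => (∀ v ∈ L, v ∈ K) ∧ ∃ u ∈ U, ∀ v ∈ L, v ∈ u) ∧
        bd h + push s (bd h) = 0 ∧
        ∀ fs : List (Z → ZMod 2), fs.length = n → (∀ f ∈ fs, ∀ z, f (s z) = f z + 1) →
          ev (om fs) h = 1 := by
  induction n with
  | zero =>
    refine ⟨{z₀}, isCompact_singleton, ?_⟩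
    intro U hU hcov
    obtain ⟨u, hu, hzu⟩ := hcov z₀ rfl
    refine ⟨one [z₀], one_mem_Supp ⟨by simp, u, hu, by simpa using hzu⟩, ?_, ?_⟩
    · simp [bdL, add_self']
    · intro fs hfs _
      rw [List.length_eq_zero_iff] at hfs
      subst hfs
      simp [om]
  | succ n ih =>
    obtain ⟨K, hK, ih⟩ := ih
    have hK2 : IsCompact (K ∪ s '' K) := hK.union (hK.image hs)
    refine ⟨(fun p : ℝ × Z => H p.1 p.2) '' (Set.Icc 0 1 ×ˢ (K ∪ s '' K)),
      (isCompact_Icc.prod hK2).image hH, ?_⟩
    intro U hU hcov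
    obtain ⟨N, hN0, hN⟩ := fine_all H hH U hU (K ∪ s '' K) hK2 (by
      intro z hz t ht
      exact hcov _ ⟨(t, z), ⟨ht, hz⟩, rfl⟩)
    set P : Set Z → Prop := fun W => ∀ l < N,
      ∃ u ∈ U, ∀ v ∈ W, ∀ t ∈ Set.Icc ((l : ℝ) / N) (((l + 1 : ℕ) : ℝ) / N), H t v ∈ u with hP
    obtain ⟨h, hsupp, hbd, hev⟩ := ih
      {A | ∃ W W', IsOpen W ∧ IsOpen W' ∧ P W ∧ P W' ∧ A = W ∩ s ⁻¹' W'} (by
        rintro _ ⟨W, W', hW, hW', _, _, rfl⟩
        exact hW.inter (hW'.preimage hs)) (by
        intro z hz
        obtain ⟨W, hW, hzW, hPW⟩ := hN z (Or.inl hz)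
        obtain ⟨W', hW', hzW', hPW'⟩ := hN (s z) (Or.inr ⟨z, hz, rfl⟩)
        exact ⟨W ∩ s ⁻¹' W', ⟨W, W', hW, hW', hPW, hPW', rfl⟩, hzW, hzW'⟩)
    have hpushpush : ∀ c : Ch Z, push s (push s c) = c := by
      intro c
      have : (push s) ∘ₗ (push s) = LinearMap.id := by
        apply lin_ext
        intro L
        simp [Function.comp_def, hss]
      simpa using LinearMap.congr_fun this c
    have hbd' : bd (coneN H N (h + push s h)) = h + push s h := by
      have h1 := bd_coneN H N hN0 (h + push s h)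
      have h2 : bd (h + push s h) = 0 := by
        rw [map_add, bd_push, hbd]
      have h3 : push (H 0) (h + push s h) = h + push s h := by
        have : push (H 0) = (LinearMap.id : Ch Z →ₗ[ZMod 2] Ch Z) := by
          apply lin_ext
          intro L
          have : H 0 = id := funext H0
          simp [this]
        rw [this]
        rfl
      have h4 : push (H 1) (h + push s h) = 0 := by
        have : (push (H 1)) ∘ₗ (push s) = push (H 1) := by
          apply lin_ext
          intro L
          have hc : (H 1) ∘ s = H 1 := by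
            funext z
            simp [H1]
          simp only [LinearMap.comp_apply, push_one, List.map_map, hc]
        rw [map_add]
        have h5 := LinearMap.congr_fun this h
        simp only [LinearMap.comp_apply] at h5
        rw [h5, add_self']
      rw [h2, map_zero, add_zero, h3, h4, add_zero] at h1
      exact h1
    refine ⟨coneN H N (h + push s h), ?_, ?_, ?_⟩
    · -- support
      have hsupp2 : h + push s h ∈ Supp (fun L : List Z => (∀ v ∈ L, v ∈ K ∪ s '' K) ∧
          ∃ W, P W ∧ ∀ v ∈ L, v ∈ W) := by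
        refine Submodule.add_mem _ ?_ ?_
        · refine Finsupp.supported_mono ?_ hsupp
          rintro L ⟨hL, A, ⟨W, W', _, _, hPW, _, rfl⟩, hLA⟩
          exact ⟨fun v hv => Or.inl (hL v hv), W, hPW, fun v hv => (hLA v hv).1⟩
        · refine map_mem_Supp (push s) ?_ hsupp
          rintro L ⟨hL, A, ⟨W, W', _, _, _, hPW', rfl⟩, hLA⟩
          rw [push_one]
          refine one_mem_Supp ⟨?_, W', hPW', ?_⟩
          · intro v hv
            obtain ⟨x, hx, rfl⟩ := List.mem_map.1 hv
            exact Or.inr ⟨x, hL x hx, rfl⟩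
          · intro v hv
            obtain ⟨x, hx, rfl⟩ := List.mem_map.1 hv
            exact (hLA x hx).2
      refine map_mem_Supp (coneN H N) ?_ hsupp2
      rintro L ⟨hL, W, hPW, hLW⟩
      rw [coneN, LinearMap.sum_apply]
      refine Submodule.sum_mem _ ?_
      intro l hl
      rw [Finset.mem_range] at hl
      rw [pr_one]
      refine Finsupp.supported_mono ?_ (prL_mem _ _ L)
      intro L' hL'
      have hNpos : (0 : ℝ) < N := by exact_mod_cast Nat.pos_of_ne_zero hN0
      have hl1 : ((l : ℝ) / N) ≤ (((l + 1 : ℕ) : ℝ) / N) := by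
        gcongr
        simp
      have hl0 : (0 : ℝ) ≤ (l : ℝ) / N := by positivity
      have hl2 : (((l + 1 : ℕ) : ℝ) / N) ≤ 1 := by
        rw [div_le_one hNpos]
        exact_mod_cast hl
      obtain ⟨u, hu, hWu⟩ := hPW l hl
      refine ⟨?_, u, hu, ?_⟩
      · intro w hw
        obtain ⟨v, hv, rfl | rfl⟩ := hL' w hw
        · exact ⟨(_, v), ⟨⟨hl0, hl1.trans hl2⟩, hL v hv⟩, rfl⟩
        · exact ⟨(_, v), ⟨⟨hl0.trans hl1, hl2⟩, hL v hv⟩, rfl⟩
      · intro w hw
        obtain ⟨v, hv, rfl | rfl⟩ := hL' w hw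
        · exact hWu v (hLW v hv) _ ⟨le_rfl, hl1⟩
        · exact hWu v (hLW v hv) _ ⟨hl1, le_rfl⟩
    · rw [hbd', map_add, hpushpush]
      have : h + push s h + (push s h + h) = (h + h) + (push s h + push s h) := by abel
      rw [this, add_self', add_self', add_zero]
    · intro fs hfs heq
      match fs, hfs with
      | f :: fs, hfs =>
        rw [← ev_al_bd, hbd', ev_al_add_push s f (heq f (by simp)) fs
          (fun g hg => heq g (by simp [hg]))]
        exact hev fs (by simpa using hfs) (fun g hg => heq g (by simp [hg]))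

/-- Weak infinite-dimensional Borsuk-Ulam theorem: on a contractible space with an involution there
is no finite family of `ZMod 2`-valued functions, changing value under the involution, one of
which is locally constant near each point. -/
theorem no_finite_index [ContractibleSpace Z] (s : Z → Z) (hs : Continuous s)
    (hss : ∀ z, s (s z) = z) (k : ℕ) (e : Fin k → Z → ZMod 2) (he : ∀ a z, e a (s z) = e a z + 1)
    (hloc : ∀ z, ∃ a, ∀ᶠ z' in 𝓝 z, e a z' = e a z) : False := by
  obtain ⟨z₀, ⟨F⟩⟩ := id_nullhomotopic Z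
  set H : ℝ → Z → Z := fun t z => F (Set.projIcc 0 1 zero_le_one t, z) with hHdef
  have hH : Continuous fun p : ℝ × Z => H p.1 p.2 := by
    simp only [hHdef]
    exact F.continuous.comp ((continuous_projIcc.comp continuous_fst).prodMk continuous_snd)
  have H0 : ∀ z, H 0 z = z := by
    intro z
    simp only [hHdef]
    rw [Set.projIcc_left]
    exact F.apply_zero z
  have H1 : ∀ z, H 1 z = z₀ := by
    intro z
    simp only [hHdef]
    rw [Set.projIcc_right]
    exact F.apply_one z
  obtain ⟨K, -, hK⟩ := exists_chain s hs hss z₀ H hH H0 H1 k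
  obtain ⟨h, hsupp, -, hev⟩ := hK {u | IsOpen u ∧ ∃ a, ∀ x ∈ u, ∀ y ∈ u, e a x = e a y}
    (fun u hu => hu.1) (by
      intro z _
      obtain ⟨a, ha⟩ := hloc z
      obtain ⟨u, hu, huo, hzu⟩ := eventually_nhds_iff.1 ha
      exact ⟨u, ⟨huo, a, fun x hx y hy => (hu x hx).trans (hu y hy).symm⟩, hzu⟩)
  have h1 := hev (List.ofFn e) (by simp) (by
    intro f hf z
    obtain ⟨a, rfl⟩ := (List.mem_ofFn' _ _).1 hf
    exact he a z)
  have h0 : ev (om (List.ofFn e)) h = 0 := by
    refine ev_eq_zero ?_ hsupp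
    rintro L ⟨-, u, ⟨-, a, hu⟩, hLu⟩
    match L with
    | [] => simp
    | v :: l =>
      refine om_eq_zero_of_const _ _ (e a) ((List.mem_ofFn' _ _).2 ⟨a, rfl⟩) (e a v) ?_
      intro w hw
      exact hu w (hLu w hw) v (hLu v (by simp))
  rw [h1] at h0
  exact one_ne_zero h0

end

end Pool.Agent.H84
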