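import Mathlib
import Pool.Agent.H84.FreeInvolution

/-!
# A space with contractible covering and 2-torsion in `π₁` is not dominated by a compact space
-/

open Topology

namespace Pool.Agent.H84

variable {Y Z : Type*} [TopologicalSpace Y] [TopologicalSpace Z]

/-- Deck involution of a contractible covering associated with an element of order two of the
fundamental group of the base. -/
theorem exists_deck [ContractibleSpace Z] [PathConnectedSpace Y] {p : Z → Y} (hp : IsCoveringMap p)
    {y : Y} (τ : FundamentalGroup Y y) (h1 : τ ≠ 1) (h2 : τ * τ = 1) :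
    ∃ s : Z → Z, Continuous s ∧ (∀ z, p (s z) = p z) ∧ (∀ z, s (s z) = z) ∧ ∀ z, s z ≠ z := by
  obtain ⟨z₀, ⟨F⟩⟩ := id_nullhomotopic Z
  let e := FundamentalGroup.fundamentalGroupMulEquivOfPathConnected (X := Y) y (p z₀)
  have h1' : e τ ≠ 1 := by
    intro h
    exact h1 (e.injective (h.trans (map_one e).symm))
  have h2' : e τ * e τ = 1 := by rw [← map_mul, h2, map_one]
  obtain ⟨ω, hω⟩ := Path.Homotopic.Quotient.mk_surjective (e τ).toPath
  have h1'' : ¬ ω.Homotopic (Path.refl (p z₀)) := by
    intro h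
    apply h1'
    change (e τ).toPath = Path.Homotopic.Quotient.refl (p z₀)
    rw [← hω]
    exact Path.Homotopic.Quotient.eq.2 h
  have h2'' : (ω.trans ω).Homotopic (Path.refl (p z₀)) := by
    have : (e τ).toPath.trans (e τ).toPath = Path.Homotopic.Quotient.refl (p z₀) := h2'
    rw [← hω] at this
    exact Path.Homotopic.Quotient.eq.1 this
  clear_value e
  clear h1' h2' hω
  have hω0 : (ω : C(unitInterval, Y)) 0 = p z₀ := ω.source
  set Ω := hp.liftPath (ω : C(unitInterval, Y)) z₀ hω0 with hΩ
  have hΩ0 : Ω 0 = z₀ := hp.liftPath_zero _ _ _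
  have hΩp : p ∘ Ω = ω := hp.liftPath_lifts _ _ _
  set z₁ := Ω 1 with hz₁
  have hpz₁ : p z₁ = p z₀ := by
    have := congrFun hΩp 1
    simpa using this
  -- `z₁ ≠ z₀`
  have hne : z₁ ≠ z₀ := by
    intro h
    apply h1''
    let Γ : Path z₀ z₀ := ⟨Ω, hΩ0, h⟩
    have hΓ : Γ.Homotopic (Path.refl z₀) := SimplyConnectedSpace.paths_homotopic _ _
    have h3 : (Γ.map hp.continuous).Homotopic ((Path.refl z₀).map hp.continuous) := hΓ.map ⟨p, hp.continuous⟩
    have h4 : Γ.map hp.continuous = ω := by
      ext t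
      exact congrFun hΩp t
    have h5 : (Path.refl z₀).map hp.continuous = Path.refl (p z₀) := by
      ext t
      rfl
    rwa [h4, h5] at h3
  -- the endpoint of the lift of `ω` starting from `z₁` is `z₀`
  have hω1 : (ω : C(unitInterval, Y)) 0 = p z₁ := hω0.trans hpz₁.symm
  have hback : hp.liftPath (ω : C(unitInterval, Y)) z₁ hω1 1 = z₀ := by
    have h3 := hp.liftPath_trans (e := z₀) rfl ω ω
    have h4 : hp.liftPath ((ω.trans ω : Path _ _) : C(unitInterval, Y)) z₀ (by simp) 1 =
        hp.liftPath ((Path.refl (p z₀) : Path _ _) : C(unitInterval, Y)) z₀ (by simp) 1 :=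
      hp.liftPath_apply_one_eq_of_homotopicRel h2'' _ _ _
    have h5 : hp.liftPath ((Path.refl (p z₀) : Path _ _) : C(unitInterval, Y)) z₀ (by simp) 1 =
        z₀ := by
      have := hp.liftPath_const (x := p z₀) (e := z₀) rfl
      exact DFunLike.congr_fun this 1
    rw [h5] at h4
    rw [h3] at h4
    simpa using h4
  -- the lifted homotopy
  let G : C(unitInterval × Z, Y) :=
    ⟨fun x => p (F (unitInterval.symm x.1, x.2)), hp.continuous.comp (F.continuous.comp
      ((unitInterval.continuous_symm.comp continuous_fst).prodMk continuous_snd))⟩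
  have hG0 : ∀ z, G (0, z) = p (ContinuousMap.const Z z₁ z) := by
    intro z
    change p (F (unitInterval.symm 0, z)) = p z₁
    rw [unitInterval.symm_zero, F.apply_one, hpz₁]
    rfl
  let S := hp.liftHomotopy G (ContinuousMap.const Z z₁) hG0
  have hSp : ∀ x, p (S x) = G x := fun x => congrFun (hp.liftHomotopy_lifts G _ hG0) x
  have hS : Continuous fun z => S (1, z) := S.continuous.comp (by fun_prop)
  have hpS : ∀ z, p (S (1, z)) = p z := by
    intro z
    rw [hSp]
    change p (F (unitInterval.symm 1, z)) = p z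
    rw [unitInterval.symm_one, F.apply_zero]
    rfl
  -- path from `z₀` to `z`
  let γ : ∀ z : Z, Path z₀ z := fun z =>
    ⟨⟨fun t => F (unitInterval.symm t, z), F.continuous.comp
      ((unitInterval.continuous_symm).prodMk continuous_const)⟩, by simp, by simp⟩
  have hSγ : ∀ z (h : ((γ z).map hp.continuous : C(unitInterval, Y)) 0 = p z₁),
      S (1, z) = hp.liftPath ((γ z).map hp.continuous : C(unitInterval, Y)) z₁ h 1 := by
    intro z h
    rfl
  have hγ0 : ∀ z, ((γ z).map hp.continuous : C(unitInterval, Y)) 0 = p z₁ := by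
    intro z
    have : ((γ z).map hp.continuous : C(unitInterval, Y)) 0 = p z₀ := by
      exact ((γ z).map hp.continuous).source
    rw [this, hpz₁]
  have hS0 : S (1, z₀) = z₁ := by
    rw [hSγ z₀ (hγ0 z₀)]
    have h3 : ((γ z₀).map hp.continuous).Homotopic ((Path.refl z₀).map hp.continuous) :=
      (SimplyConnectedSpace.paths_homotopic (γ z₀) (Path.refl z₀)).map ⟨p, hp.continuous⟩
    have h4 := hp.liftPath_apply_one_eq_of_homotopicRel h3 z₁ (hγ0 z₀)
      (by simpa using hpz₁.symm)
    refine h4.trans ?_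
    have h5 := hp.liftPath_const (x := p z₀) (e := z₁) hpz₁.symm
    exact DFunLike.congr_fun h5 1
  have hS1 : S (1, z₁) = z₀ := by
    rw [hSγ z₁ (hγ0 z₁)]
    let Γ : Path z₀ z₁ := ⟨Ω, hΩ0, rfl⟩
    have h3 : ((γ z₁).map hp.continuous).Homotopic (Γ.map hp.continuous) :=
      (SimplyConnectedSpace.paths_homotopic (γ z₁) Γ).map ⟨p, hp.continuous⟩
    have h4 : Γ.map hp.continuous = ω.cast rfl hpz₁ := by
      ext t
      exact congrFun hΩp t
    rw [h4] at h3
    have h5 := hp.liftPath_apply_one_eq_of_homotopicRel h3 z₁ (hγ0 z₁) hω1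
    exact h5.trans hback
  have hss : (fun z => S (1, S (1, z))) = id := by
    refine hp.eq_of_comp_eq (hS.comp hS) continuous_id ?_ z₀ ?_
    · funext z
      simp only [Function.comp_apply, id]
      rw [hpS, hpS]
    · change S (1, S (1, z₀)) = z₀
      rw [hS0, hS1]
  refine ⟨fun z => S (1, z), hS, hpS, congrFun hss, ?_⟩
  intro z hz
  have : (fun z => S (1, z)) = id := by
    refine hp.eq_of_comp_eq hS continuous_id ?_ z hz
    funext z
    simp only [Function.comp_apply, id]
    rw [hpS]
  apply hne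
  rw [← hS0]
  exact congrFun this z₀

/-- Evenly covered neighbourhoods give locally constant sheet indices. -/
theorem exists_index {p : Z → Y} (hp : IsCoveringMap p) (x : Y) :
    ∃ U : Set Y, IsOpen U ∧ x ∈ U ∧ ∃ j : Z → Option Z,
      (∀ z z', p z ∈ U → p z' = p z → j z = j z' → z = z') ∧
      ∀ z, p z ∈ U → ∀ᶠ z' in 𝓝 z, j z' = j z := by
  classical
  obtain ⟨hdisc, U, hxU, hU, hU', H, hH⟩ := hp x
  refine ⟨U, hU, hxU, fun z => if h : p z ∈ U then some (H ⟨z, h⟩).2.1 else none, ?_, ?_⟩
  · intro z z' hz hzz' hj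
    have hz' : p z' ∈ U := by rwa [hzz']
    simp only [hz, hz', dif_pos, Option.some.injEq] at hj
    have h1 : H ⟨z, hz⟩ = H ⟨z', hz'⟩ := by
      refine Prod.ext (Subtype.ext ?_) (Subtype.ext hj)
      rw [hH, hH]
      exact hzz'.symm
    have h2 := H.injective h1
    exact congrArg Subtype.val h2
  · intro z hz
    have hc : Continuous fun w : p ⁻¹' U => (H w).2 := continuous_snd.comp H.continuous
    have ho : IsOpen ((fun w : p ⁻¹' U => (H w).2) ⁻¹' {(H ⟨z, hz⟩).2}) :=
      (isOpen_discrete _).preimage hc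
    have ho2 := hU'.isOpenMap_subtype_val _ ho
    filter_upwards [ho2.mem_nhds ⟨⟨z, hz⟩, rfl, rfl⟩] with z' hz'
    obtain ⟨w, hw, rfl⟩ := hz'
    have hw2 : p w.1 ∈ U := w.2
    simp only [hz, hw2, dif_pos]
    rw [show (H ⟨w.1, hw2⟩).2 = (H ⟨z, hz⟩).2 from hw]

/-- A space with a contractible covering whose fundamental group has an element of order two is not
a homotopy retract of a compact space. -/
theorem not_dominated [ContractibleSpace Z] [PathConnectedSpace Y] {p : Z → Y}
    (hp : IsCoveringMap p) {y : Y} (τ : FundamentalGroup Y y) (h1 : τ ≠ 1) (h2 : τ * τ = 1)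
    {L : Type*} [TopologicalSpace L] [CompactSpace L] (i : C(Y, L)) (r : C(L, Y))
    (hri : (r.comp i).Homotopic (ContinuousMap.id Y)) : False := by
  classical
  obtain ⟨s, hs, hps, hss, hsne⟩ := exists_deck hp τ h1 h2
  obtain ⟨F⟩ := hri.symm
  let G : C(unitInterval × Z, Y) :=
    ⟨fun x => F (x.1, p x.2), F.continuous.comp (continuous_fst.prodMk
      (hp.continuous.comp continuous_snd))⟩
  have hG0 : ∀ z, G (0, z) = p (ContinuousMap.id Z z) := by
    intro z
    change F (0, p z) = p z
    rw [F.apply_zero]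
    rfl
  let B := hp.liftHomotopy G (ContinuousMap.id Z) hG0
  have hB0 : ∀ z, B (0, z) = z := fun z => hp.liftHomotopy_zero G _ hG0 z
  have hBp : ∀ x, p (B x) = G x := fun x => congrFun (hp.liftHomotopy_lifts G _ hG0) x
  have hBs : (fun x : unitInterval × Z => B (x.1, s x.2)) = fun x => s (B x) := by
    obtain ⟨z₀⟩ : Nonempty Z := inferInstance
    refine hp.eq_of_comp_eq (B.continuous.comp (continuous_fst.prodMk (hs.comp continuous_snd)))
      (hs.comp B.continuous) ?_ (0, z₀) ?_
    · funext x
      simp only [Function.comp_apply]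
      rw [hBp, hps, hBp]
      change F (x.1, p (s x.2)) = F (x.1, p x.2)
      rw [hps]
    · change B (0, s z₀) = s (B (0, z₀))
      rw [hB0, hB0]
  set bar : Z → Z := fun z => B (1, z) with hbar
  have hbarc : Continuous bar := B.continuous.comp (by fun_prop)
  have hbars : ∀ z, bar (s z) = s (bar z) := fun z => congrFun hBs (1, z)
  have hbarp : ∀ z, p (bar z) = r (i (p z)) := by
    intro z
    rw [hbar, hBp]
    change F (1, p z) = r (i (p z))
    rw [F.apply_one]
    rfl
  -- finite cover of `L`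
  choose U hU hxU j hj hjc using exists_index hp
  obtain ⟨T, hT⟩ := (isCompact_univ (X := L)).elim_finite_subcover (fun l : L => r ⁻¹' U (r l))
    (fun l => (hU _).preimage r.continuous) (fun l _ => Set.mem_iUnion.2 ⟨l, hxU _⟩)
  letI : LinearOrder (Option Z) := IsWellOrder.linearOrder WellOrderingRel
  let e : T → Z → ZMod 2 := fun l z =>
    if r (i (p z)) ∈ U (r l) then
      (if j (r l) (bar z) < j (r l) (s (bar z)) then 1 else 0)
    else (if some z < some (s z) then 1 else 0)
  have hflip : ∀ (a b : Option Z), a ≠ b → (if b < a then (1 : ZMod 2) else 0) =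
      (if a < b then 1 else 0) + 1 := by
    intro a b hab
    rcases lt_or_gt_of_ne hab with h | h
    · rw [if_neg (not_lt_of_gt h), if_pos h]
      decide
    · rw [if_pos h, if_neg (not_lt_of_gt h)]
      decide
  have he : ∀ l z, e l (s z) = e l z + 1 := by
    intro l z
    simp only [e]
    rw [hps]
    by_cases hz : r (i (p z)) ∈ U (r l)
    · rw [if_pos hz, if_pos hz, hbars, hss]
      refine hflip _ _ ?_
      intro h
      refine hsne (bar z) (hj (r l) (bar z) (s (bar z)) ?_ (hps _) h).symm
      rw [hbarp]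
      exact hz
    · rw [if_neg hz, if_neg hz, hss]
      refine hflip _ _ ?_
      intro h
      exact hsne z (Option.some.inj h).symm
  have hloc : ∀ z, ∃ l, ∀ᶠ z' in 𝓝 z, e l z' = e l z := by
    intro z
    obtain ⟨l, hl⟩ := Set.mem_iUnion.1 (hT (Set.mem_univ (i (p z))))
    obtain ⟨hlT, hz⟩ := Set.mem_iUnion.1 hl
    refine ⟨⟨l, hlT⟩, ?_⟩
    have hz' : r (i (p z)) ∈ U (r l) := hz
    have h3 : ∀ᶠ z' in 𝓝 z, r (i (p z')) ∈ U (r l) :=
      ((r.continuous.comp (i.continuous.comp hp.continuous)).tendsto z).eventually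
        ((hU _).mem_nhds hz')
    have h4 : ∀ᶠ z' in 𝓝 z, j (r l) (bar z') = j (r l) (bar z) :=
      (hbarc.tendsto z).eventually (hjc (r l) (bar z) (by rw [hbarp]; exact hz'))
    have h5 : ∀ᶠ z' in 𝓝 z, j (r l) (s (bar z')) = j (r l) (s (bar z)) :=
      ((hs.comp hbarc).tendsto z).eventually
        (hjc (r l) (s (bar z)) (by rw [hps, hbarp]; exact hz'))
    filter_upwards [h3, h4, h5] with z' h3 h4 h5
    simp only [e]
    rw [if_pos h3, if_pos hz', h4, h5]
  let φ := Fintype.equivFin T
  exact no_finite_index s hs hss (Fintype.card T) (fun a => e (φ.symm a)) (fun a => he _) (by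
    intro z
    obtain ⟨l, hl⟩ := hloc z
    exact ⟨φ l, by simpa using hl⟩)

end Pool.Agent.H84
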