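import Pool.Agent.H84.SelfCoverDefs
import Pool.Agent.H84.Domination

/-!
# A `K(Q,1)` with an involution in `Q` is not finitely dominated
-/

open Topology

namespace Pool.Agent.H84

universe u v w

/-- A finite CW complex is compact. -/
lemma compactSpace_of_finiteCW {L : Type u} [TopologicalSpace L] [T2Space L]
    [CWComplex (Set.univ : Set L)] (h : CWComplex.Finite (Set.univ : Set L)) : CompactSpace L := by
  have hfin : Finite (Σ n, RelCWComplex.cell (Set.univ : Set L) n) :=
    CWComplex.finite_cells_of_finite
  refine ⟨?_⟩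
  have hU : (Set.univ : Set L) =
      ⋃ x : (Σ n, RelCWComplex.cell (Set.univ : Set L) n), RelCWComplex.closedCell x.1 x.2 := by
    rw [Set.iUnion_sigma]
    exact (CWComplex.union (C := (Set.univ : Set L))).symm
  rw [hU]
  exact isCompact_iUnion fun x => RelCWComplex.isCompact_closedCell

/-- A `K(Q,1)` with an element of order two in `Q` is not finitely dominated. -/
theorem not_finitelyDominated {Q : Type w} [Group Q] (τ : Q) (h1 : τ ≠ 1) (h2 : τ * τ = 1)
    {Y : Type u} [TopologicalSpace Y] (hY : IsK1 Q Y) : ¬ FinitelyDominated.{u, v} Y := by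
  rintro ⟨L, _, _, _, hL, i, r, hri⟩
  have := hY.pathConnected
  have := compactSpace_of_finiteCW hL
  obtain ⟨Z, _, _, p, hp⟩ := hY.contractibleCover
  obtain ⟨y⟩ : Nonempty Y := inferInstance
  obtain ⟨e⟩ := hY.fundamentalGroup y
  refine not_dominated hp (e.symm τ) ?_ ?_ i r hri
  · intro h
    apply h1
    have h3 : e (e.symm τ) = e 1 := congrArg e h
    rwa [e.apply_symm_apply, map_one] at h3
  · rw [← map_mul, h2, map_one]

end Pool.Agent.H84
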