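import Pool.Agent.H84.KleinMap

/-!
# A finite CW structure on the Klein bottle
-/

open Topology Metric Set

namespace Pool.Agent.H84

open KG

/-- The cells of the Klein bottle: one vertex, two edges, one face. -/
inductive KCell : ℕ → Type
  | vert : KCell 0
  | edgeA : KCell 1
  | edgeB : KCell 1
  | face : KCell 2

namespace KCell

/-- a numbering of the cells -/
def code : {n : ℕ} → KCell n → Fin 4
  | _, vert => 0
  | _, edgeA => 1
  | _, edgeB => 2
  | _, face => 3

lemma code_injective (n : ℕ) : Function.Injective (code (n := n)) := by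
  intro a b h
  cases a <;> cases b <;> first | rfl | (simp [code] at h)

instance (n : ℕ) : Finite (KCell n) := Finite.of_injective _ (code_injective n)

lemma isEmpty_of_le {n : ℕ} (hn : 3 ≤ n) : IsEmpty (KCell n) := by
  constructor
  intro a
  cases a <;> omega

end KCell

open KCell

/-- The affine parametrisations of the cells in the plane. -/
noncomputable def aff : {n : ℕ} → KCell n → (Fin n → ℝ) → ℝ × ℝ
  | _, vert, _ => (0, 0)
  | _, edgeA, t => ((t 0 + 1) / 2, 0)
  | _, edgeB, t => (0, (t 0 + 1) / 4)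
  | _, face, t => ((t 0 + 1) / 2, (t 1 + 1) / 4)

lemma aff_edgeA (t : Fin 1 → ℝ) : aff edgeA t = ((t 0 + 1) / 2, 0) := rfl
lemma aff_edgeB (t : Fin 1 → ℝ) : aff edgeB t = (0, (t 0 + 1) / 4) := rfl
lemma aff_face (t : Fin 2 → ℝ) : aff face t = ((t 0 + 1) / 2, (t 1 + 1) / 4) := rfl

/-- Left inverses of the affine parametrisations. -/
noncomputable def affInv : {n : ℕ} → KCell n → ℝ × ℝ → (Fin n → ℝ)
  | _, vert, _ => ![]
  | _, edgeA, v => ![2 * v.1 - 1]
  | _, edgeB, v => ![4 * v.2 - 1]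
  | _, face, v => ![2 * v.1 - 1, 4 * v.2 - 1]

/-- Open boxes in which the cells live. -/
def box : {n : ℕ} → KCell n → Set (ℝ × ℝ)
  | _, vert => Ioo (-1 / 2) (1 / 2) ×ˢ Ioo (-1 / 4) (1 / 4)
  | _, edgeA => Ioo 0 1 ×ˢ Ioo (-1 / 4) (1 / 4)
  | _, edgeB => Ioo (-1 / 2) (1 / 2) ×ˢ Ioo 0 (1 / 2)
  | _, face => Ioo 0 1 ×ˢ Ioo 0 (1 / 2)

lemma aff_continuous {n : ℕ} (j : KCell n) : Continuous (aff j) := by
  cases j <;> unfold aff <;> fun_prop

lemma affInv_continuous {n : ℕ} (j : KCell n) : Continuous (affInv j) := by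
  cases j <;> unfold affInv <;> fun_prop

lemma affInv_aff {n : ℕ} (j : KCell n) (t : Fin n → ℝ) : affInv j (aff j t) = t := by
  cases j
  · exact Subsingleton.elim _ _
  · funext i
    fin_cases i
    simp [aff, affInv]
    ring
  · funext i
    fin_cases i
    simp [aff, affInv]
    ring
  · funext i
    fin_cases i
    · simp [aff, affInv]
      ring
    · simp [aff, affInv]
      ring

lemma mem_ball_iff {n : ℕ} (t : Fin n → ℝ) : t ∈ ball (0 : Fin n → ℝ) 1 ↔ ∀ i, |t i| < 1 := by
  rw [mem_ball_zero_iff, pi_norm_lt_iff one_pos]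
  rfl

lemma mem_closedBall_iff {n : ℕ} (t : Fin n → ℝ) :
    t ∈ closedBall (0 : Fin n → ℝ) 1 ↔ ∀ i, |t i| ≤ 1 := by
  rw [mem_closedBall_zero_iff, pi_norm_le_iff_of_nonneg zero_le_one]
  rfl

lemma aff_mem_box {n : ℕ} (j : KCell n) (t : Fin n → ℝ) (ht : t ∈ ball (0 : Fin n → ℝ) 1) :
    aff j t ∈ box j := by
  rw [mem_ball_iff] at ht
  cases j
  · simp only [aff, box, mem_prod, mem_Ioo]
    norm_num
  · have h0 := abs_lt.1 (ht 0)
    simp only [aff, box, mem_prod, mem_Ioo]
    refine ⟨⟨?_, ?_⟩, ?_, ?_⟩ <;> linarith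
  · have h0 := abs_lt.1 (ht 0)
    simp only [aff, box, mem_prod, mem_Ioo]
    refine ⟨⟨?_, ?_⟩, ?_, ?_⟩ <;> linarith
  · have h0 := abs_lt.1 (ht 0)
    have h1 := abs_lt.1 (ht 1)
    simp only [aff, box, mem_prod, mem_Ioo]
    refine ⟨⟨?_, ?_⟩, ?_, ?_⟩ <;> linarith

lemma aff_mem_FD {n : ℕ} (j : KCell n) (t : Fin n → ℝ) (ht : t ∈ ball (0 : Fin n → ℝ) 1) :
    aff j t ∈ FD := by
  rw [mem_ball_iff] at ht
  cases j
  · simp only [aff, FD, mem_prod, mem_Ico]
    norm_num
  · have h0 := abs_lt.1 (ht 0)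
    simp only [aff, FD, mem_prod, mem_Ico]
    refine ⟨⟨?_, ?_⟩, ?_, ?_⟩ <;> linarith
  · have h0 := abs_lt.1 (ht 0)
    simp only [aff, FD, mem_prod, mem_Ico]
    refine ⟨⟨?_, ?_⟩, ?_, ?_⟩ <;> linarith
  · have h0 := abs_lt.1 (ht 0)
    have h1 := abs_lt.1 (ht 1)
    simp only [aff, FD, mem_prod, mem_Ico]
    refine ⟨⟨?_, ?_⟩, ?_, ?_⟩ <;> linarith

lemma isOpen_box {n : ℕ} (j : KCell n) : IsOpen (box j) := by
  cases j <;> exact isOpen_Ioo.prod isOpen_Ioo

lemma injOn_box {n : ℕ} (j : KCell n) : InjOn kp (box j) := by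
  cases j
  · exact (kp_injOn_box (-1 / 2) (-1 / 4)).mono
      (prod_mono (Ioo_subset_Ico_self.trans (Ico_subset_Ico le_rfl (by norm_num)))
        (Ioo_subset_Ico_self.trans (Ico_subset_Ico le_rfl (by norm_num))))
  · exact (kp_injOn_box 0 (-1 / 4)).mono
      (prod_mono (Ioo_subset_Ico_self.trans (Ico_subset_Ico le_rfl (by norm_num)))
        (Ioo_subset_Ico_self.trans (Ico_subset_Ico le_rfl (by norm_num))))
  · exact (kp_injOn_box (-1 / 2) 0).mono
      (prod_mono (Ioo_subset_Ico_self.trans (Ico_subset_Ico le_rfl (by norm_num)))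
        (Ioo_subset_Ico_self.trans (Ico_subset_Ico le_rfl (by norm_num))))
  · exact (kp_injOn_box 0 0).mono
      (prod_mono (Ioo_subset_Ico_self.trans (Ico_subset_Ico le_rfl (by norm_num)))
        (Ioo_subset_Ico_self.trans (Ico_subset_Ico le_rfl (by norm_num))))

lemma kp_isOpenMap : IsOpenMap kp := kp_qc.isCoveringMap.isLocalHomeomorph.isOpenMap

lemma aff_injective {n : ℕ} (j : KCell n) : Function.Injective (aff j) :=
  Function.LeftInverse.injective (affInv_aff j)

lemma injOn_cell {n : ℕ} (j : KCell n) : InjOn (kp ∘ aff j) (ball 0 1) := by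
  intro s hs t ht h
  exact aff_injective j (injOn_box j (aff_mem_box j s hs) (aff_mem_box j t ht) h)

/-- The characteristic maps of the cells. -/
noncomputable def kmap (n : ℕ) (j : KCell n) : PartialEquiv (Fin n → ℝ) Klein :=
  (injOn_cell j).toPartialEquiv _ _

@[simp] lemma kmap_apply (n : ℕ) (j : KCell n) (t : Fin n → ℝ) : kmap n j t = kp (aff j t) := rfl

lemma kmap_source (n : ℕ) (j : KCell n) : (kmap n j).source = ball 0 1 := rfl

lemma kmap_continuous (n : ℕ) (j : KCell n) : Continuous (kmap n j) :=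
  kp_continuous.comp (aff_continuous j)

lemma kmap_symm_continuousOn (n : ℕ) (j : KCell n) :
    ContinuousOn (kmap n j).symm (kmap n j).target := by
  have h1 : ContinuousOn (Function.invFunOn kp (box j)) (kp '' box j) := by
    refine IsOpenMap.continuousOn_image_of_leftInvOn ?_ (injOn_box j).leftInvOn_invFunOn
    exact kp_isOpenMap.domRestrict (isOpen_box j)
  have h2 : ContinuousOn (affInv j ∘ Function.invFunOn kp (box j)) (kp '' box j) :=
    (affInv_continuous j).comp_continuousOn h1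
  have h3 : (kmap n j).target ⊆ kp '' box j := by
    rw [← (kmap n j).image_source_eq_target]
    rintro _ ⟨t, ht, rfl⟩
    exact ⟨aff j t, aff_mem_box j t ht, rfl⟩
  refine (h2.mono h3).congr ?_
  intro y hy
  rw [← (kmap n j).image_source_eq_target] at hy
  obtain ⟨t, ht, rfl⟩ := hy
  rw [(kmap n j).left_inv ht]
  have h4 : Function.invFunOn kp (box j) (kp (aff j t)) = aff j t :=
    (injOn_box j).leftInvOn_invFunOn (aff_mem_box j t ht)
  rw [Function.comp_apply, kmap_apply, h4, affInv_aff]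

open Classical in
/-- which cell a point of the fundamental domain lies in -/
noncomputable def tag (v : ℝ × ℝ) : Σ n, KCell n :=
  if v.1 = 0 then (if v.2 = 0 then ⟨0, vert⟩ else ⟨1, edgeB⟩)
  else (if v.2 = 0 then ⟨1, edgeA⟩ else ⟨2, face⟩)

lemma tag_aff {n : ℕ} (j : KCell n) (t : Fin n → ℝ) (ht : t ∈ ball (0 : Fin n → ℝ) 1) :
    tag (aff j t) = ⟨n, j⟩ := by
  rw [mem_ball_iff] at ht
  cases j
  · simp [aff, tag]
  · have h0 := abs_lt.1 (ht 0)
    have h1 : (t 0 + 1) / 2 ≠ 0 := by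
      have : 0 < (t 0 + 1) / 2 := by linarith
      exact this.ne'
    unfold aff tag
    rw [if_neg h1, if_pos rfl]
  · have h0 := abs_lt.1 (ht 0)
    have h1 : (t 0 + 1) / 4 ≠ 0 := by
      have : 0 < (t 0 + 1) / 4 := by linarith
      exact this.ne'
    unfold aff tag
    rw [if_pos rfl, if_neg h1]
  · have h0 := abs_lt.1 (ht 0)
    have h0' := abs_lt.1 (ht 1)
    have h1 : (t 0 + 1) / 2 ≠ 0 := by
      have : 0 < (t 0 + 1) / 2 := by linarith
      exact this.ne'
    have h2 : (t 1 + 1) / 4 ≠ 0 := by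
      have : 0 < (t 1 + 1) / 4 := by linarith
      exact this.ne'
    unfold aff tag
    rw [if_neg h1, if_neg h2]

lemma cells_disjoint : (univ : Set (Σ n, KCell n)).PairwiseDisjoint
    (fun ni ↦ kmap ni.1 ni.2 '' ball 0 1) := by
  rintro ⟨n, i⟩ _ ⟨m, j⟩ _ hne
  rw [Function.onFun, Set.disjoint_left]
  rintro _ ⟨s, hs, rfl⟩ ⟨t, ht, hst⟩
  apply hne
  have h1 : aff j t = aff i s :=
    kp_injOn_FD (aff_mem_FD j t ht) (aff_mem_FD i s hs) hst
  rw [← tag_aff i s hs, ← tag_aff j t ht, h1]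

lemma kp_edge1 (y : ℝ) : kp (1, y) = kp (0, y) := by
  rw [kp_eq_iff]
  exact ⟨⟨0, 1⟩, by ext <;> simp⟩

lemma kp_edge2 (x : ℝ) : kp (x, 1 / 2) = kp (1 - x, 0) := by
  rw [kp_eq_iff]
  refine ⟨⟨1, 1⟩, ?_⟩
  have : sg 1 = -1 := sg_odd odd_one
  ext
  · simp [this]
  · simp

lemma mapsTo_edgeA : MapsTo (kmap 1 edgeA) (sphere 0 1)
    (⋃ (m < 1) (j : KCell m), kmap m j '' closedBall 0 1) := by
  intro t ht
  rw [mem_sphere_zero_iff_norm] at ht
  have h1 : |t 0| = 1 := by
    have : ‖t‖ = ‖t 0‖ := by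
      simp [Pi.norm_def]
    rw [← Real.norm_eq_abs, ← this, ht]
  simp only [mem_iUnion]
  refine ⟨0, zero_lt_one, vert, 0, by simp, ?_⟩
  rw [kmap_apply, kmap_apply]
  rcases eq_or_eq_neg_of_abs_eq h1 with h | h
  · have h2 : aff edgeA t = (1, 0) := by
      rw [aff_edgeA]
      rw [h]
      norm_num
    rw [h2, kp_edge1]
    rfl
  · have h2 : aff edgeA t = (0, 0) := by
      rw [aff_edgeA]
      rw [h]
      norm_num
    rw [h2]
    rfl

lemma mapsTo_edgeB : MapsTo (kmap 1 edgeB) (sphere 0 1)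
    (⋃ (m < 1) (j : KCell m), kmap m j '' closedBall 0 1) := by
  intro t ht
  rw [mem_sphere_zero_iff_norm] at ht
  have h1 : |t 0| = 1 := by
    have : ‖t‖ = ‖t 0‖ := by
      simp [Pi.norm_def]
    rw [← Real.norm_eq_abs, ← this, ht]
  simp only [mem_iUnion]
  refine ⟨0, zero_lt_one, vert, 0, by simp, ?_⟩
  rw [kmap_apply, kmap_apply]
  rcases eq_or_eq_neg_of_abs_eq h1 with h | h
  · have h2 : aff edgeB t = (0, 1 / 2) := by
      rw [aff_edgeB]
      rw [h]
      norm_num
    rw [h2, kp_edge2, sub_zero, kp_edge1]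
    rfl
  · have h2 : aff edgeB t = (0, 0) := by
      rw [aff_edgeB]
      rw [h]
      norm_num
    rw [h2]
    rfl

lemma mapsTo_face : MapsTo (kmap 2 face) (sphere 0 1)
    (⋃ (m < 2) (j : KCell m), kmap m j '' closedBall 0 1) := by
  intro t ht
  have hle := (mem_closedBall_iff t).1 (sphere_subset_closedBall ht)
  have hlt : ¬ t ∈ ball (0 : Fin 2 → ℝ) 1 := by
    rw [mem_sphere_zero_iff_norm] at ht
    rw [mem_ball_zero_iff, ht]
    exact lt_irrefl _
  rw [mem_ball_iff, not_forall] at hlt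
  obtain ⟨i, hi⟩ := hlt
  have hi' : |t i| = 1 := le_antisymm (hle i) (not_lt.1 hi)
  simp only [mem_iUnion]
  refine ⟨1, one_lt_two, ?_⟩
  have hcase : |t 0| = 1 ∨ |t 1| = 1 := by
    fin_cases i
    · exact Or.inl hi'
    · exact Or.inr hi'
  rcases hcase with hc | hc
  · refine ⟨edgeB, fun _ => t 1, ?_, ?_⟩
    · rw [mem_closedBall_iff]
      intro _
      exact hle 1
    · rw [kmap_apply, kmap_apply]
      rcases eq_or_eq_neg_of_abs_eq hc with h | h
      · have h2 : aff face t = (1, (t 1 + 1) / 4) := by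
          rw [aff_face]
          rw [h]
          norm_num
        rw [h2, kp_edge1]
        rfl
      · have h2 : aff face t = (0, (t 1 + 1) / 4) := by
          rw [aff_face]
          rw [h]
          norm_num
        rw [h2]
        rfl
  · rcases eq_or_eq_neg_of_abs_eq hc with h | h
    · refine ⟨edgeA, fun _ => - t 0, ?_, ?_⟩
      · rw [mem_closedBall_iff]
        intro _
        rw [abs_neg]
        exact hle 0
      · rw [kmap_apply, kmap_apply]
        have h2 : aff face t = ((t 0 + 1) / 2, 1 / 2) := by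
          rw [aff_face]
          rw [h]
          norm_num
        have h3 : aff edgeA (fun _ => - t 0) = (1 - (t 0 + 1) / 2, 0) := by
          rw [aff_edgeA]
          have : (-t 0 + 1) / 2 = 1 - (t 0 + 1) / 2 := by ring
          rw [this]
        rw [h2, h3, kp_edge2]
    · refine ⟨edgeA, fun _ => t 0, ?_, ?_⟩
      · rw [mem_closedBall_iff]
        intro _
        exact hle 0
      · rw [kmap_apply, kmap_apply]
        have h2 : aff face t = ((t 0 + 1) / 2, 0) := by
          rw [aff_face]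
          rw [h]
          norm_num
        rw [h2]
        rfl

lemma mapsTo_cell (n : ℕ) (i : KCell n) :
    MapsTo (kmap n i) (sphere 0 1) (⋃ (m < n) (j : KCell m), kmap m j '' closedBall 0 1) := by
  cases i
  · intro t ht
    have : t = 0 := Subsingleton.elim _ _
    rw [this, mem_sphere_zero_iff_norm, norm_zero] at ht
    exact absurd ht zero_ne_one
  · exact mapsTo_edgeA
  · exact mapsTo_edgeB
  · exact mapsTo_face

lemma cells_union : ⋃ (n : ℕ) (j : KCell n), kmap n j '' closedBall 0 1 = (univ : Set Klein) := by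
  refine eq_univ_of_forall fun y => ?_
  have hy : y ∈ kp '' FD := by
    rw [kp_image_FD]
    exact mem_univ y
  obtain ⟨v, ⟨⟨h1, h2⟩, h3, h4⟩, rfl⟩ := hy
  simp only [mem_iUnion]
  refine ⟨2, face, affInv face v, ?_, ?_⟩
  · rw [mem_closedBall_iff]
    intro i
    rw [abs_le]
    fin_cases i
    · change -1 ≤ 2 * v.1 - 1 ∧ 2 * v.1 - 1 ≤ 1
      constructor <;> linarith
    · change -1 ≤ 4 * v.2 - 1 ∧ 4 * v.2 - 1 ≤ 1
      constructor <;> linarith
  · rw [kmap_apply]
    congr 1
    ext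
    · simp [aff, affInv]
    · simp [aff, affInv]

/-- The Klein bottle is a CW complex. -/
noncomputable instance kleinCW : CWComplex (univ : Set Klein) :=
  CWComplex.mkFinite (univ : Set Klein) KCell kmap
    (Filter.eventually_atTop.2 ⟨3, fun _ hn => KCell.isEmpty_of_le hn⟩)
    (fun _ => inferInstance) kmap_source (fun n j => (kmap_continuous n j).continuousOn)
    kmap_symm_continuousOn cells_disjoint mapsTo_cell cells_union

instance kleinCW_finite : CWComplex.Finite (univ : Set Klein) :=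
  CWComplex.finite_mkFinite (univ : Set Klein) KCell kmap
    (Filter.eventually_atTop.2 ⟨3, fun _ hn => KCell.isEmpty_of_le hn⟩)
    (fun _ => inferInstance) kmap_source (fun n j => (kmap_continuous n j).continuousOn)
    kmap_symm_continuousOn cells_disjoint mapsTo_cell cells_union

end Pool.Agent.H84
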