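import Mathlib

/-!
# The Klein bottle group acting on the plane
-/

open Topology

namespace Pool.Agent.H84

/-- The Klein bottle group: the pair `(m, n)` stands for the isometry
`(x, y) ↦ ((-1)^m x + n, y + m / 2)` of the plane. -/
@[ext] structure KG where
  /-- first coordinate -/
  m : ℤ
  /-- second coordinate -/
  n : ℤ

namespace KG

/-- the sign `(-1)^m` as an integer -/
def sg (m : ℤ) : ℤ := (m.negOnePow : ℤ)

lemma sg_add (a b : ℤ) : sg (a + b) = sg a * sg b := by
  simp [sg, Int.negOnePow_add]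

@[simp] lemma sg_zero : sg 0 = 1 := by simp [sg]

lemma sg_neg (a : ℤ) : sg (-a) = sg a := by simp [sg]

lemma sg_mul_self (a : ℤ) : sg a * sg a = 1 := by
  simp [sg]

lemma sg_even {a : ℤ} (h : Even a) : sg a = 1 := by
  simp [sg, Int.negOnePow_even a h]

lemma sg_odd {a : ℤ} (h : Odd a) : sg a = -1 := by
  simp [sg, Int.negOnePow_odd a h]

instance : Mul KG := ⟨fun a b => ⟨a.m + b.m, a.n + sg a.m * b.n⟩⟩
instance : One KG := ⟨⟨0, 0⟩⟩
instance : Inv KG := ⟨fun a => ⟨-a.m, -(sg a.m * a.n)⟩⟩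

@[simp] lemma mul_m (a b : KG) : (a * b).m = a.m + b.m := rfl
@[simp] lemma mul_n (a b : KG) : (a * b).n = a.n + sg a.m * b.n := rfl
@[simp] lemma one_m : (1 : KG).m = 0 := rfl
@[simp] lemma one_n : (1 : KG).n = 0 := rfl
@[simp] lemma inv_m (a : KG) : (a⁻¹).m = -a.m := rfl
@[simp] lemma inv_n (a : KG) : (a⁻¹).n = -(sg a.m * a.n) := rfl

instance : Group KG :=
  Group.ofLeftAxioms
    (by
      intro a b c
      ext
      · simp [add_assoc]
      · simp [sg_add]
        ring)
    (by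
      intro a
      ext <;> simp)
    (by
      intro a
      ext
      · simp
      · simp [sg_neg])

noncomputable instance : MulAction KG (ℝ × ℝ) where
  smul g v := ((sg g.m : ℝ) * v.1 + g.n, v.2 + (g.m : ℝ) / 2)
  one_smul v := by
    change (((sg (1 : KG).m : ℤ) : ℝ) * v.1 + ((1 : KG).n : ℝ), v.2 + ((1 : KG).m : ℝ) / 2) = v
    simp
  mul_smul a b v := by
    change (((sg (a * b).m : ℤ) : ℝ) * v.1 + ((a * b).n : ℝ), v.2 + ((a * b).m : ℝ) / 2) =
      (((sg a.m : ℤ) : ℝ) * (((sg b.m : ℤ) : ℝ) * v.1 + (b.n : ℝ)) + (a.n : ℝ),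
        (v.2 + (b.m : ℝ) / 2) + (a.m : ℝ) / 2)
    ext
    · simp [sg_add]
      ring
    · simp
      ring

lemma smul_def (g : KG) (v : ℝ × ℝ) :
    g • v = ((sg g.m : ℝ) * v.1 + g.n, v.2 + (g.m : ℝ) / 2) := rfl

@[simp] lemma smul_fst (g : KG) (v : ℝ × ℝ) : (g • v).1 = (sg g.m : ℝ) * v.1 + g.n := rfl
@[simp] lemma smul_snd (g : KG) (v : ℝ × ℝ) : (g • v).2 = v.2 + (g.m : ℝ) / 2 := rfl

instance : ContinuousConstSMul KG (ℝ × ℝ) where
  continuous_const_smul g := by
    simp only [smul_def]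
    fun_prop

/-- The key fact: an element moving a point of an open box of width `1` and height `1/2` into the
same box is trivial. -/
lemma eq_one_of_close (g : KG) (v : ℝ × ℝ) (h1 : |(g • v).1 - v.1| < 1)
    (h2 : |(g • v).2 - v.2| < 1 / 2) : g = 1 := by
  have hm : g.m = 0 := by
    rw [smul_snd] at h2
    have h3 : |((g.m : ℤ) : ℝ) / 2| < 1 / 2 := by
      have : v.2 + (g.m : ℝ) / 2 - v.2 = (g.m : ℝ) / 2 := by ring
      rwa [this] at h2
    rw [abs_div, abs_two, div_lt_div_iff_of_pos_right two_pos] at h3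
    have h4 : |g.m| < 1 := by exact_mod_cast h3
    exact Int.abs_lt_one_iff.1 h4
  have hn : g.n = 0 := by
    rw [smul_fst, hm, sg_zero] at h1
    have h3 : |((g.n : ℤ) : ℝ)| < 1 := by
      have : ((1 : ℤ) : ℝ) * v.1 + (g.n : ℝ) - v.1 = g.n := by push_cast; ring
      rwa [this] at h1
    have h4 : |g.n| < 1 := by exact_mod_cast h3
    exact Int.abs_lt_one_iff.1 h4
  ext
  · simpa using hm
  · simpa using hn

lemma free (g : KG) (v : ℝ × ℝ) (h : g • v = v) : g = 1 := by
  refine eq_one_of_close g v ?_ ?_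
  · rw [h]; simp
  · rw [h]; simp

instance : IsCancelSMul KG (ℝ × ℝ) where
  left_cancel' g v w h := by
    have := congrArg (g⁻¹ • ·) h
    simpa using this
  right_cancel' g h v hv := by
    have : (h⁻¹ * g) • v = v := by
      rw [mul_smul, hv, inv_smul_smul]
    have h1 := free _ _ this
    rwa [inv_mul_eq_one, eq_comm] at h1

instance : ProperlyDiscontinuousSMul KG (ℝ × ℝ) where
  finite_disjoint_inter_image := by
    intro K L hK hL
    obtain ⟨a, ha⟩ := hK.isBounded.subset_closedBall (0 : ℝ × ℝ)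
    obtain ⟨b, hb⟩ := hL.isBounded.subset_closedBall (0 : ℝ × ℝ)
    obtain ⟨N, hN⟩ := exists_nat_gt (2 * (|a| + |b|))
    have hfin : ((fun p : ℤ × ℤ => (⟨p.1, p.2⟩ : KG)) ''
        (Set.Icc (-(N : ℤ)) N ×ˢ Set.Icc (-(N : ℤ)) N)).Finite :=
      ((Set.finite_Icc _ _).prod (Set.finite_Icc _ _)).image _
    refine hfin.subset ?_
    rintro g ⟨_, ⟨v, hv, rfl⟩, hgv⟩
    have h1 : ‖v‖ ≤ |a| := by
      have := ha hv
      rw [mem_closedBall_zero_iff] at this
      exact this.trans (le_abs_self a)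
    have h2 : ‖g • v‖ ≤ |b| := by
      have := hb hgv
      rw [mem_closedBall_zero_iff] at this
      exact this.trans (le_abs_self b)
    have h3 : |v.1| ≤ |a| := (norm_fst_le v).trans h1
    have h4 : |v.2| ≤ |a| := (norm_snd_le v).trans h1
    have h5 : |(g • v).1| ≤ |b| := (norm_fst_le (g • v)).trans h2
    have h6 : |(g • v).2| ≤ |b| := (norm_snd_le (g • v)).trans h2
    have hm : |(g.m : ℝ)| < N := by
      have : (g.m : ℝ) = 2 * ((g • v).2 - v.2) := by rw [smul_snd]; ring
      rw [this, abs_mul, abs_two]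
      have := abs_sub (g • v).2 v.2
      linarith
    have hn : |(g.n : ℝ)| < N := by
      have : (g.n : ℝ) = (g • v).1 - (sg g.m : ℝ) * v.1 := by rw [smul_fst]; ring
      rw [this]
      have h7 := abs_sub (g • v).1 ((sg g.m : ℝ) * v.1)
      have h8 : |(sg g.m : ℝ)| = 1 := by
        rcases Int.even_or_odd g.m with h | h
        · rw [sg_even h]; simp
        · rw [sg_odd h]; simp
      rw [abs_mul, h8, one_mul] at h7
      have := abs_nonneg a
      have := abs_nonneg b
      linarith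
    have hm' : |g.m| < N := by exact_mod_cast hm
    have hn' : |g.n| < N := by exact_mod_cast hn
    rw [abs_lt] at hm' hn'
    exact ⟨(g.m, g.n), ⟨⟨hm'.1.le, hm'.2.le⟩, ⟨hn'.1.le, hn'.2.le⟩⟩, rfl⟩

end KG

/-- The Klein bottle. -/
def Klein : Type := Quotient (MulAction.orbitRel KG (ℝ × ℝ))

instance : TopologicalSpace Klein :=
  inferInstanceAs (TopologicalSpace (Quotient (MulAction.orbitRel KG (ℝ × ℝ))))

instance : T2Space Klein :=
  inferInstanceAs (T2Space (Quotient (MulAction.orbitRel KG (ℝ × ℝ))))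

/-- The projection from the plane to the Klein bottle. -/
noncomputable def kp : ℝ × ℝ → Klein := Quotient.mk (MulAction.orbitRel KG (ℝ × ℝ))

lemma kp_qc : IsQuotientCoveringMap kp KG :=
  isQuotientCoveringMap_quotientMk_of_properlyDiscontinuousSMul

lemma kp_continuous : Continuous kp := kp_qc.isCoveringMap.continuous

lemma kp_surj : Function.Surjective kp := kp_qc.surjective

lemma kp_eq_iff {v w : ℝ × ℝ} : kp v = kp w ↔ ∃ g : KG, g • w = v := by
  rw [kp_qc.apply_eq_iff_mem_orbit]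
  rfl

lemma kp_smul (g : KG) (v : ℝ × ℝ) : kp (g • v) = kp v := kp_eq_iff.2 ⟨g, rfl⟩

instance : PathConnectedSpace Klein := kp_surj.pathConnectedSpace kp_continuous

end Pool.Agent.H84
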