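import Pool.Agent.H84.KleinGroup

/-!
# A three-fold self-covering of the Klein bottle
-/

open Topology

namespace Pool.Agent.H84

namespace KG

/-- `0` for even and `1` for odd integers -/
def cc (m : ℤ) : ℤ := m % 2

lemma cc_even {m : ℤ} (h : Even m) : cc m = 0 := Int.even_iff.1 h

lemma cc_odd {m : ℤ} (h : Odd m) : cc m = 1 := Int.odd_iff.1 h

lemma two_cc (m : ℤ) : 2 * cc m = 1 - sg m := by
  rcases Int.even_or_odd m with h | h
  · rw [cc_even h, sg_even h]; rfl
  · rw [cc_odd h, sg_odd h]; rfl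

lemma cc_add (a b : ℤ) : cc (a + b) = cc a + sg a * cc b := by
  have h1 := two_cc (a + b)
  have h2 := two_cc a
  have h3 := two_cc b
  rw [sg_add] at h1
  have : 2 * cc (a + b) = 2 * (cc a + sg a * cc b) := by
    rw [h1, mul_add, h2]
    have : 2 * (sg a * cc b) = sg a * (2 * cc b) := by ring
    rw [this, h3]
    ring
  exact mul_left_cancel₀ two_ne_zero this

/-- the endomorphism `(m, n) ↦ (m, 3 n + c(m))` -/
def phi : KG →* KG where
  toFun g := ⟨g.m, 3 * g.n + cc g.m⟩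
  map_one' := by
    ext
    · simp
    · simp [cc]
  map_mul' a b := by
    ext
    · simp
    · simp [cc_add]
      ring

@[simp] lemma phi_m (g : KG) : (phi g).m = g.m := rfl
@[simp] lemma phi_n (g : KG) : (phi g).n = 3 * g.n + cc g.m := rfl

lemma phi_injective : Function.Injective phi := by
  intro a b h
  have h1 := congrArg KG.m h
  have h2 := congrArg KG.n h
  simp only [phi_m, phi_n] at h1 h2
  rw [h1] at h2
  ext
  · exact h1
  · omega

end KG

open KG

/-- The affine map `(x, y) ↦ (3 x + 1/2, y)` of the plane. -/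
noncomputable def AA : (ℝ × ℝ) ≃ₜ (ℝ × ℝ) where
  toFun v := (3 * v.1 + 1 / 2, v.2)
  invFun v := ((v.1 - 1 / 2) / 3, v.2)
  left_inv v := by
    ext <;> simp
  right_inv v := by
    ext
    · simp; ring
    · simp
  continuous_toFun := by fun_prop
  continuous_invFun := by fun_prop

@[simp] lemma AA_fst (v : ℝ × ℝ) : (AA v).1 = 3 * v.1 + 1 / 2 := rfl
@[simp] lemma AA_snd (v : ℝ × ℝ) : (AA v).2 = v.2 := rfl

lemma AA_smul (g : KG) (v : ℝ × ℝ) : AA (g • v) = phi g • AA v := by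
  have h := two_cc g.m
  have h' : 2 * ((cc g.m : ℤ) : ℝ) = 1 - ((sg g.m : ℤ) : ℝ) := by exact_mod_cast h
  ext
  · simp only [AA_fst, smul_fst, phi_m, phi_n]
    push_cast
    linarith
  · simp

/-- The self-covering of the Klein bottle induced by `AA`. -/
noncomputable def qq : C(Klein, Klein) where
  toFun := Quotient.lift (fun v => kp (AA v)) (by
    rintro v w ⟨g, hg⟩
    simp only at hg
    rw [← hg, AA_smul, kp_smul])
  continuous_toFun := Continuous.quotient_lift (kp_continuous.comp AA.continuous) _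

@[simp] lemma qq_kp (v : ℝ × ℝ) : qq (kp v) = kp (AA v) := rfl

/-- Every point of the plane can be moved into the half-open fundamental domain. -/
lemma exists_smul_mem (v : ℝ × ℝ) :
    ∃ g : KG, (g • v).1 ∈ Set.Ico (0 : ℝ) 1 ∧ (g • v).2 ∈ Set.Ico (0 : ℝ) (1 / 2) := by
  set m : ℤ := -⌊2 * v.2⌋ with hm
  set n : ℤ := -⌊(sg m : ℝ) * v.1⌋ with hn
  refine ⟨⟨m, n⟩, ?_, ?_⟩
  · simp only [smul_fst]
    have h1 := Int.floor_le ((sg m : ℝ) * v.1)
    have h2 := Int.lt_floor_add_one ((sg m : ℝ) * v.1)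
    rw [Set.mem_Ico, hn]
    push_cast
    constructor <;> linarith
  · simp only [smul_snd]
    have h1 := Int.floor_le (2 * v.2)
    have h2 := Int.lt_floor_add_one (2 * v.2)
    rw [Set.mem_Ico, hm]
    push_cast
    constructor <;> linarith

/-- The half-open fundamental domain. -/
def FD : Set (ℝ × ℝ) := Set.Ico (0 : ℝ) 1 ×ˢ Set.Ico (0 : ℝ) (1 / 2)

lemma kp_image_FD : kp '' FD = Set.univ := by
  refine Set.eq_univ_of_forall fun y => ?_
  obtain ⟨v, rfl⟩ := kp_surj y
  obtain ⟨g, h1, h2⟩ := exists_smul_mem v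
  exact ⟨g • v, ⟨h1, h2⟩, kp_smul g v⟩

lemma kp_injOn_box (a b : ℝ) :
    Set.InjOn kp (Set.Ico a (a + 1) ×ˢ Set.Ico b (b + 1 / 2)) := by
  rintro v ⟨⟨hv1, hv2⟩, hv3, hv4⟩ w ⟨⟨hw1, hw2⟩, hw3, hw4⟩ h
  obtain ⟨g, hg⟩ := kp_eq_iff.1 h
  have h1 : g = 1 := by
    refine eq_one_of_close g w ?_ ?_
    · rw [hg, abs_lt]; constructor <;> linarith
    · rw [hg, abs_lt]; constructor <;> linarith
  rw [← hg, h1, one_smul]

lemma kp_injOn_FD : Set.InjOn kp FD := by
  have := kp_injOn_box 0 0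
  simpa [FD] using this

instance : CompactSpace Klein := by
  refine ⟨?_⟩
  have h : IsCompact (Set.Icc (0 : ℝ) 1 ×ˢ Set.Icc (0 : ℝ) (1 / 2)) :=
    isCompact_Icc.prod isCompact_Icc
  have h2 := h.image kp_continuous
  have h3 : kp '' (Set.Icc (0 : ℝ) 1 ×ˢ Set.Icc (0 : ℝ) (1 / 2)) = Set.univ := by
    refine Set.eq_univ_of_univ_subset ?_
    rw [← kp_image_FD]
    exact Set.image_mono (Set.prod_mono Set.Ico_subset_Icc_self Set.Ico_subset_Icc_self)
  rwa [h3] at h2

lemma qq_isCoveringMap : IsCoveringMap qq := by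
  rw [← isLocalHomeomorph_iff_isCoveringMap, isLocalHomeomorph_iff_isLocalHomeomorphOn_univ]
  have h1 : IsLocalHomeomorph kp := kp_qc.isCoveringMap.isLocalHomeomorph
  have h2 : IsLocalHomeomorph (kp ∘ AA) := h1.comp AA.isLocalHomeomorph
  have h3 : IsLocalHomeomorphOn ((qq : Klein → Klein) ∘ kp) Set.univ := by
    have : (qq : Klein → Klein) ∘ kp = kp ∘ AA := by
      funext v
      rfl
    rw [this]
    exact h2.isLocalHomeomorphOn
  have h4 := h3.of_comp_right h1.isLocalHomeomorphOn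
  rwa [Set.image_univ, kp_surj.range_eq] at h4

/-- The three preimages of a point. -/
noncomputable def kpre (w : ℝ × ℝ) (i : Fin 3) : ℝ × ℝ := AA.symm ((⟨0, (i : ℕ)⟩ : KG) • w)

lemma AA_kpre (w : ℝ × ℝ) (i : Fin 3) : AA (kpre w i) = (⟨0, (i : ℕ)⟩ : KG) • w := by
  simp [kpre]

lemma qq_kpre (w : ℝ × ℝ) (i : Fin 3) : qq (kp (kpre w i)) = kp w := by
  rw [qq_kp, AA_kpre, kp_smul]

lemma card_fibre (y : Klein) : Nat.card (qq ⁻¹' {y}) = 3 := by
  obtain ⟨w, rfl⟩ := kp_surj y
  have hb : Function.Bijective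
      (fun i : Fin 3 => (⟨kp (kpre w i), qq_kpre w i⟩ : qq ⁻¹' {kp w})) := by
    constructor
    · intro i j hij
      have h1 : kp (kpre w i) = kp (kpre w j) := congrArg Subtype.val hij
      obtain ⟨g, hg⟩ := kp_eq_iff.1 h1
      have h2 := congrArg AA hg
      rw [AA_smul, AA_kpre, AA_kpre, ← mul_smul] at h2
      have h3 : phi g * ⟨0, (j : ℕ)⟩ = (⟨0, (i : ℕ)⟩ : KG) := by
        have h4 : ((⟨0, (i : ℕ)⟩ : KG)⁻¹ * (phi g * ⟨0, (j : ℕ)⟩)) • w = w := by
          rw [mul_smul, h2, inv_smul_smul]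
        have h5 := free _ _ h4
        rwa [inv_mul_eq_one, eq_comm] at h5
      have h4 := congrArg KG.m h3
      have h5 := congrArg KG.n h3
      simp only [mul_m, mul_n, phi_m, phi_n, add_zero] at h4 h5
      rw [h4, sg_zero] at h5
      have h6 : cc 0 = 0 := rfl
      rw [h6] at h5
      have hi := i.2
      have hj := j.2
      apply Fin.ext
      omega
    · rintro ⟨z, hz⟩
      obtain ⟨v, rfl⟩ := kp_surj z
      have hz' : kp (AA v) = kp w := hz
      obtain ⟨g, hg⟩ := kp_eq_iff.1 hz'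
      set r : ℤ := (sg g.m * (g.n - cc g.m)) % 3 with hr
      set d : ℤ := (sg g.m * (g.n - cc g.m)) / 3 with hd
      have hr0 : 0 ≤ r := Int.emod_nonneg _ (by norm_num)
      have hr3 : r < 3 := Int.emod_lt_of_pos _ (by norm_num)
      have hrd : 3 * d + r = sg g.m * (g.n - cc g.m) := Int.mul_ediv_add_emod _ _
      obtain ⟨i, hi⟩ : ∃ i : Fin 3, ((i : ℕ) : ℤ) = r := by
        refine ⟨⟨r.toNat, by omega⟩, ?_⟩
        simp [hr0]
      refine ⟨i, ?_⟩
      apply Subtype.ext
      change kp (kpre w i) = kp v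
      rw [eq_comm, kp_eq_iff]
      refine ⟨⟨g.m, sg g.m * d⟩, ?_⟩
      apply AA.injective
      rw [AA_smul, AA_kpre, ← mul_smul, ← hg]
      congr 1
      ext
      · simp
      · simp only [mul_n, phi_n, phi_m]
        rw [hi]
        have h7 := sg_mul_self g.m
        have : 3 * (sg g.m * d) + cc g.m + sg g.m * r = sg g.m * (3 * d + r) + cc g.m := by ring
        rw [this, hrd, ← mul_assoc, h7]
        ring
  rw [← Nat.card_eq_of_bijective _ hb, Nat.card_eq_fintype_card, Fintype.card_fin]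

/-- The base point in the plane. -/
noncomputable def v0 : ℝ × ℝ := (-(1 / 4), 0)

lemma AA_v0 : AA v0 = v0 := by
  ext
  · simp [v0]; norm_num
  · simp [v0]

lemma qq_v0 : qq (kp v0) = kp v0 := by
  rw [qq_kp, AA_v0]

end Pool.Agent.H84
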