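import Mathlib

/-!
# Quotient coverings and equivariant maps: the induced map on fundamental groups
-/

open Topology

namespace Pool.Agent.H84

variable {E X G : Type*} [TopologicalSpace E] [TopologicalSpace X] [Group G] [MulAction G E]
  {p : E → X}

/-- Monodromy of the image of a path under an equivariant map. -/
theorem monodromy_mapOfEq (hc : IsCoveringMap p) (A : C(E, E)) (q : C(X, X))
    (hq : ∀ e, q (p e) = p (A e)) (e₀ : E)
    (he₀ : A e₀ = e₀) (hx : q (p e₀) = p e₀) (γ : FundamentalGroup X (p e₀)) :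
    A (hc.monodromy γ (⟨e₀, rfl⟩ : p ⁻¹' {p e₀})) =
      hc.monodromy (FundamentalGroup.mapOfEq q hx γ) (⟨e₀, rfl⟩ : p ⁻¹' {p e₀}) := by
  rw [FundamentalGroup.mapOfEq_apply]
  obtain ⟨γ⟩ := γ
  have hs : (γ : C(unitInterval, X)) 0 = p e₀ := γ.source
  have hs' : ((γ.map q.continuous).cast hx.symm hx.symm : C(unitInterval, X)) 0 = p e₀ := by
    simp
  have key : (A.comp (hc.liftPath γ e₀ hs)) =
      hc.liftPath ((γ.map q.continuous).cast hx.symm hx.symm) e₀ hs' := by
    refine (hc.eq_liftPath_iff' hs').2 ⟨?_, ?_⟩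
    · funext t
      have := congrFun (hc.liftPath_lifts γ e₀ hs) t
      simp only [Function.comp_apply] at this
      simp only [Function.comp_apply, ContinuousMap.comp_apply]
      rw [← hq, this]
      rfl
    · simp only [ContinuousMap.comp_apply]
      rw [hc.liftPath_zero, he₀]
  have := congrArg (fun f : C(unitInterval, E) => f 1) key
  exact this

/-- The fundamental group of the base is anti-isomorphic to the deck group, naturally with respect
to equivariant maps fixing the base point. -/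
theorem theta_map (hp : IsQuotientCoveringMap p G) (A : C(E, E)) (q : C(X, X)) (φ : G →* G)
    (hq : ∀ e, q (p e) = p (A e)) (hA : ∀ (g : G) e, A (g • e) = φ g • A e) (e₀ : E)
    (he₀ : A e₀ = e₀) (hx : q (p e₀) = p e₀) (γ : FundamentalGroup X (p e₀)) :
    hp.fundamentalGroupToMulOpposite (⟨e₀, rfl⟩ : p ⁻¹' {p e₀}) (FundamentalGroup.mapOfEq q hx γ) =
      MulOpposite.op (φ (hp.fundamentalGroupToMulOpposite (⟨e₀, rfl⟩ : p ⁻¹' {p e₀}) γ).unop) := by
  rw [hp.fundamentalGroupToMulOpposite_apply_eq_Iff, MulOpposite.unop_op]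
  have h1 := hp.unop_fundamentalGroupToMulOpposite_smul (e := (⟨e₀, rfl⟩ : p ⁻¹' {p e₀})) (γ := γ)
  have h2 : φ (hp.fundamentalGroupToMulOpposite (⟨e₀, rfl⟩ : p ⁻¹' {p e₀}) γ).unop • e₀ =
      A (hp.isCoveringMap.monodromy γ (⟨e₀, rfl⟩ : p ⁻¹' {p e₀})) := by
    rw [← h1, hA, he₀]
  rw [h2]
  exact monodromy_mapOfEq hp.isCoveringMap A q hq e₀ he₀ hx γ

end Pool.Agent.H84
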