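import Pool.Agent.H84.SelfCoverDefs
import Pool.Agent.H84.KleinCW
import Pool.Agent.H84.ThetaMap

/-!
# The group `G` and the quotient `Q` for the self-covering of the Klein bottle
-/

open Topology

namespace Pool.Agent.H84

open KG

namespace KG

/-- `phi` as an element of the endomorphism monoid -/
def phiE : Monoid.End KG := phi

lemma phiE_apply (g : KG) : phiE g = phi g := rfl

/-- an invariant multiplied by `3` by `phi` and vanishing exactly on `{(m, 0) : m even}` -/
def ww (g : KG) : ℤ := 2 * g.n + cc g.m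

lemma ww_phi (g : KG) : ww (phi g) = 3 * ww g := by
  simp only [ww, phi_n, phi_m]
  ring

lemma ww_eq_zero (g : KG) : ww g = 0 ↔ Even g.m ∧ g.n = 0 := by
  unfold ww
  constructor
  · intro h
    rcases Int.even_or_odd g.m with hm | hm
    · rw [cc_even hm] at h
      exact ⟨hm, by omega⟩
    · rw [cc_odd hm] at h
      omega
  · rintro ⟨hm, hn⟩
    rw [cc_even hm, hn]
    rfl

lemma ww_phi_pow (k : ℕ) (g : KG) : ww ((phiE ^ k) g) = 3 ^ k * ww g := by
  induction k generalizing g with
  | zero => simp
  | succ k ih =>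
    rw [pow_succ]
    change ww ((phiE ^ k) (phi g)) = _
    rw [ih, ww_phi]
    ring

lemma phi_pow_fixed (k : ℕ) (g : KG) (h : ww g = 0) : (phiE ^ k) g = g := by
  have h1 : phi g = g := by
    obtain ⟨hm, hn⟩ := (ww_eq_zero g).1 h
    ext
    · simp
    · simp [hn, cc_even hm]
  induction k with
  | zero => rfl
  | succ k ih =>
    rw [pow_succ]
    change (phiE ^ k) (phi g) = _
    rw [h1, ih]

/-- The intersection of the images of the powers of `phi`. -/
lemma mem_range_pow_iff (g : KG) :
    (∀ k : ℕ, 1 ≤ k → ∃ a, (phiE ^ k) a = g) ↔ ww g = 0 := by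
  constructor
  · intro h
    obtain ⟨a, ha⟩ := h ((ww g).natAbs + 1) (by omega)
    have h1 : (3 : ℤ) ^ ((ww g).natAbs + 1) ∣ ww g := by
      have h0 := ww_phi_pow ((ww g).natAbs + 1) a
      rw [ha] at h0
      exact ⟨ww a, h0⟩
    have h2 : |ww g| < (3 : ℤ) ^ ((ww g).natAbs + 1) := by
      have h3 : (ww g).natAbs + 1 < 3 ^ ((ww g).natAbs + 1) := Nat.lt_pow_self (by norm_num)
      have h4 : (((ww g).natAbs + 1 : ℕ) : ℤ) < ((3 ^ ((ww g).natAbs + 1) : ℕ) : ℤ) := by
        exact_mod_cast h3
      push_cast at h4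
      linarith
    exact Int.eq_zero_of_abs_lt_dvd h1 h2
  · intro h k _
    exact ⟨g, phi_pow_fixed k g h⟩

/-- The projection to the infinite dihedral group. -/
def psi : KG →* DihedralGroup 0 where
  toFun g := if Even g.m then DihedralGroup.r (Int.cast g.n) else DihedralGroup.sr (Int.cast (-g.n))
  map_one' := by
    rw [if_pos (by simp), one_n, Int.cast_zero, DihedralGroup.r_zero]
  map_mul' a b := by
    rcases Int.even_or_odd a.m with ha | ha <;> rcases Int.even_or_odd b.m with hb | hb
    · have hab : Even (a * b).m := by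
        rw [mul_m]
        exact ha.add hb
      rw [if_pos ha, if_pos hb, if_pos hab, DihedralGroup.r_mul_r, mul_n, sg_even ha]
      congr 1
      rw [← Int.cast_add]
      congr 1
      ring
    · have hab : ¬ Even (a * b).m := by
        rw [mul_m, Int.not_even_iff_odd]
        exact ha.add_odd hb
      rw [if_pos ha, if_neg (Int.not_even_iff_odd.2 hb), if_neg hab, DihedralGroup.r_mul_sr, mul_n,
        sg_even ha]
      congr 1
      rw [← Int.cast_sub]
      congr 1
      ring
    · have hab : ¬ Even (a * b).m := by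
        rw [mul_m, Int.not_even_iff_odd]
        exact ha.add_even hb
      rw [if_neg (Int.not_even_iff_odd.2 ha), if_pos hb, if_neg hab, DihedralGroup.sr_mul_r, mul_n,
        sg_odd ha]
      congr 1
      rw [← Int.cast_add]
      congr 1
      ring
    · have hab : Even (a * b).m := by
        rw [mul_m]
        exact ha.add_odd hb
      rw [if_neg (Int.not_even_iff_odd.2 ha), if_neg (Int.not_even_iff_odd.2 hb), if_pos hab,
        DihedralGroup.sr_mul_sr, mul_n, sg_odd ha]
      congr 1
      rw [← Int.cast_sub]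
      congr 1
      ring

lemma psi_even {g : KG} (h : Even g.m) : psi g = DihedralGroup.r (Int.cast g.n) := if_pos h

lemma psi_odd {g : KG} (h : ¬ Even g.m) : psi g = DihedralGroup.sr (Int.cast (-g.n)) :=
  if_neg h

lemma psi_eq_one (g : KG) : psi g = 1 ↔ ww g = 0 := by
  rw [ww_eq_zero]
  by_cases hm : Even g.m
  · rw [psi_even hm, DihedralGroup.one_def, DihedralGroup.r.injEq,
      CharP.intCast_eq_zero_iff (ZMod 0) 0]
    simp [hm]
  · rw [psi_odd hm, DihedralGroup.one_def]
    constructor
    · intro h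
      cases h
    · rintro ⟨h, _⟩
      exact absurd h hm

lemma psi_surjective : Function.Surjective psi := by
  intro d
  rcases d with i | i
  · obtain ⟨j, rfl⟩ := ZMod.intCast_surjective i
    exact ⟨⟨0, j⟩, psi_even (g := ⟨0, j⟩) (by simp)⟩
  · obtain ⟨j, rfl⟩ := ZMod.intCast_surjective i
    refine ⟨⟨1, -j⟩, ?_⟩
    rw [psi_odd (g := ⟨1, -j⟩) (by simp), neg_neg]

end KG

/-- The 3-fold self-covering of the Klein bottle as an instance of the problem. -/
noncomputable def kleinSC : SelfCover Klein where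
  X' := Klein
  q := qq
  isCoveringMap := qq_isCoveringMap
  degree := 3
  one_lt_degree := by norm_num
  card_fibre := card_fibre
  h := ContinuousMap.HomotopyEquiv.refl Klein
  x₀ := kp v0
  x₀' := kp v0
  h_base := rfl
  q_base := qq_v0

/-- The identification of the fundamental group of the Klein bottle with `KG`. -/
noncomputable def theta : FundamentalGroup Klein kleinSC.x₀ ≃* KG :=
  (kp_qc.fundamentalGroupEquiv (⟨v0, rfl⟩ : kp ⁻¹' {kp v0})).trans (MulEquiv.inv' KG).symm

lemma theta_hSharp_aux (γ : FundamentalGroup Klein (kp v0)) :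
    (kp_qc.fundamentalGroupToMulOpposite (⟨v0, rfl⟩ : kp ⁻¹' {kp v0})
      (FundamentalGroup.mapOfEq qq qq_v0 γ)).unop⁻¹ =
    phi (kp_qc.fundamentalGroupToMulOpposite (⟨v0, rfl⟩ : kp ⁻¹' {kp v0}) γ).unop⁻¹ := by
  have h := theta_map kp_qc (AA : C(ℝ × ℝ, ℝ × ℝ)) qq phi qq_kp AA_smul v0 AA_v0 qq_v0 γ
  rw [h, MulOpposite.unop_op, map_inv]

lemma theta_hSharp (γ : FundamentalGroup Klein kleinSC.x₀) :
    theta (kleinSC.hSharp γ) = phi (theta γ) :=
  theta_hSharp_aux γ

lemma theta_hSharp_pow (k : ℕ) (γ : FundamentalGroup Klein kleinSC.x₀) :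
    theta ((kleinSC.hSharp ^ k) γ) = (phiE ^ k) (theta γ) := by
  induction k generalizing γ with
  | zero => rfl
  | succ k ih =>
    rw [pow_succ, pow_succ]
    change theta ((kleinSC.hSharp ^ k) (kleinSC.hSharp γ)) = (phiE ^ k) (phi (theta γ))
    rw [ih, theta_hSharp]

/-- The projection from the fundamental group of the Klein bottle to the infinite dihedral
group. -/
noncomputable def Psi : FundamentalGroup Klein kleinSC.x₀ →* DihedralGroup 0 :=
  psi.comp theta.toMonoidHom

lemma Psi_apply (γ : FundamentalGroup Klein kleinSC.x₀) : Psi γ = psi (theta γ) := rfl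

lemma G_eq_ker : kleinSC.G = Psi.ker := by
  ext γ
  rw [SelfCover.mem_G, MonoidHom.mem_ker]
  change _ ↔ psi (theta γ) = 1
  rw [psi_eq_one, ← mem_range_pow_iff]
  refine forall_congr' fun k => forall_congr' fun _ => ?_
  constructor
  · rintro ⟨δ, hδ⟩
    refine ⟨theta δ, ?_⟩
    rw [← theta_hSharp_pow]
    exact congrArg theta hδ
  · rintro ⟨a, ha⟩
    refine ⟨theta.symm a, ?_⟩
    apply theta.injective
    have h := theta_hSharp_pow k (theta.symm a)
    rw [MulEquiv.apply_symm_apply, ha] at h
    exact h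

lemma Psi_surjective : Function.Surjective Psi :=
  psi_surjective.comp theta.surjective

instance G_normal : kleinSC.G.Normal := by
  rw [G_eq_ker]
  infer_instance

/-- The quotient `Q` is the infinite dihedral group. -/
noncomputable def quotEquiv :
    FundamentalGroup Klein kleinSC.x₀ ⧸ kleinSC.G ≃* DihedralGroup 0 :=
  (QuotientGroup.quotientMulEquivOfEq G_eq_ker).trans
    (QuotientGroup.quotientKerEquivOfSurjective Psi Psi_surjective)

/-- The subgroup `{(2 i, 0)}` of `KG`. -/
def evenHom : Multiplicative ℤ →* KG where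
  toFun i := ⟨2 * i.toAdd, 0⟩
  map_one' := rfl
  map_mul' a b := by
    ext
    · simp [mul_add]
    · simp

lemma mem_G_iff (γ : FundamentalGroup Klein kleinSC.x₀) :
    γ ∈ kleinSC.G ↔ Even (theta γ).m ∧ (theta γ).n = 0 := by
  rw [G_eq_ker, MonoidHom.mem_ker]
  change psi (theta γ) = 1 ↔ _
  rw [psi_eq_one, ww_eq_zero]

/-- `G` is infinite cyclic. -/
noncomputable def GEquiv : Multiplicative ℤ ≃* kleinSC.G := by
  refine MulEquiv.ofBijective (MonoidHom.codRestrict (theta.symm.toMonoidHom.comp evenHom)
    kleinSC.G ?_) ⟨?_, ?_⟩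
  · intro i
    refine (mem_G_iff _).2 ?_
    have h : theta (theta.symm (evenHom i)) = evenHom i := theta.apply_symm_apply _
    change Even (theta (theta.symm (evenHom i))).m ∧ (theta (theta.symm (evenHom i))).n = 0
    rw [h]
    exact ⟨even_two_mul _, rfl⟩
  · intro i j hij
    have h1 : theta.symm (evenHom i) = theta.symm (evenHom j) := congrArg Subtype.val hij
    have h2 := theta.symm.injective h1
    have h3 : 2 * i.toAdd = 2 * j.toAdd := congrArg KG.m h2
    have h4 : i.toAdd = j.toAdd := by omega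
    exact h4
  · rintro ⟨γ, hγ⟩
    obtain ⟨⟨a, ha⟩, hn⟩ := (mem_G_iff γ).1 hγ
    refine ⟨Multiplicative.ofAdd a, ?_⟩
    apply Subtype.ext
    change theta.symm (evenHom (Multiplicative.ofAdd a)) = γ
    rw [MulEquiv.symm_apply_eq]
    ext
    · rw [ha]
      change 2 * a = a + a
      ring
    · rw [hn]
      rfl

instance : Group.IsFinitelyPresented kleinSC.G := Group.IsFinitelyPresented.equiv GEquiv

end Pool.Agent.H84
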