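import Mathlib

/-!
# Self-coverings up to homotopy, finitely dominated spaces, Eilenberg-MacLane spaces
-/

open Topology ContinuousMap

namespace Pool.Agent.H84

universe u v

/-- The data of the problem on a space `X`: a base point `x₀`, a covering `q : X' → X` whose
fibres all have the same finite number `degree > 1` of points, and a homotopy equivalence
`h : X → X'` that preserves base points (`h x₀ = x₀'`, `q x₀' = x₀`). -/
structure SelfCover (X : Type u) [TopologicalSpace X] where
  /-- the covering space `X'` -/
  X' : Type u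
  [top : TopologicalSpace X']
  /-- the covering `q : X' → X` -/
  q : C(X', X)
  isCoveringMap : IsCoveringMap q
  /-- the degree of `q` -/
  degree : ℕ
  one_lt_degree : 1 < degree
  card_fibre : ∀ x : X, Nat.card (q ⁻¹' {x}) = degree
  /-- the homotopy equivalence `h : X → X'` -/
  h : ContinuousMap.HomotopyEquiv X X'
  /-- the base point of `X` -/
  x₀ : X
  /-- the base point of `X'` -/
  x₀' : X'
  h_base : h x₀ = x₀'
  q_base : q x₀' = x₀

attribute [instance] SelfCover.top

namespace SelfCover

variable {X : Type u} [TopologicalSpace X] (S : SelfCover X)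

/-- The composition `q ∘ h : X → X` preserves the base point. -/
lemma comp_base : (S.q.comp S.h.toFun) S.x₀ = S.x₀ := by
  have h1 : S.h.toFun S.x₀ = S.x₀' := S.h_base
  rw [ContinuousMap.comp_apply, h1, S.q_base]

/-- The endomorphism `h_#` of `π₁(X, x₀)` induced by `q ∘ h : X → X`. -/
noncomputable def hSharp : Monoid.End (FundamentalGroup X S.x₀) :=
  FundamentalGroup.mapOfEq (S.q.comp S.h.toFun) S.comp_base

/-- The subgroup `G = ⋂_{k ≥ 1} im (h_#)^k` of `π₁(X, x₀)`. -/
noncomputable def G : Subgroup (FundamentalGroup X S.x₀) :=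
  ⨅ k : ℕ, ⨅ _ : 1 ≤ k, MonoidHom.range (S.hSharp ^ k : Monoid.End (FundamentalGroup X S.x₀))

lemma mem_G (γ : FundamentalGroup X S.x₀) :
    γ ∈ S.G ↔ ∀ k : ℕ, 1 ≤ k → ∃ δ, (S.hSharp ^ k : Monoid.End (FundamentalGroup X S.x₀)) δ = γ := by
  simp only [G, Subgroup.mem_iInf]
  exact Iff.rfl

end SelfCover

/-- `Y` is finitely dominated: it is a homotopy retract of a finite CW complex `L`, that is, there
are maps `i : Y → L` and `r : L → Y` such that `r ∘ i` is homotopic to the identity of `Y`. -/
def FinitelyDominated (Y : Type u) [TopologicalSpace Y] : Prop :=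
  ∃ (L : Type v) (_ : TopologicalSpace L) (_ : T2Space L) (_ : CWComplex (Set.univ : Set L)),
    CWComplex.Finite (Set.univ : Set L) ∧
      ∃ (i : C(Y, L)) (r : C(L, Y)), (r.comp i).Homotopic (ContinuousMap.id Y)

/-- `Y` is a `K(Q,1)`: it is path connected, its fundamental group is isomorphic to `Q` and it has
a contractible covering space. -/
structure IsK1 (Q : Type v) [Group Q] (Y : Type u) [TopologicalSpace Y] : Prop where
  pathConnected : PathConnectedSpace Y
  fundamentalGroup : ∀ y : Y, Nonempty (FundamentalGroup Y y ≃* Q)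
  contractibleCover : ∃ (Z : Type u) (_ : TopologicalSpace Z) (_ : ContractibleSpace Z)
    (p : Z → Y), IsCoveringMap p

end Pool.Agent.H84
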